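import Mathlib
import Pool.Agent.K4H35.NT.Defs

/-!
# The classes which are algebraic on every variety
-/

set_option autoImplicit false

namespace Pool.Agent.K4H54.PL

open Matrix Pool.Agent.K4H35.NT

/-- The property holds for the classes which are algebraic on every variety `Y`: the point, the
diagonal of `Y` (the identity of `H(Y)`), the unit class, the class `pt` of a point, and the Poincaré
form `q(x, y) = ∫ x ∪ y` as a map `H(Y × Y) → ℚ` (the correspondence defined by the diagonal). -/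
structure Planar (Y : Cohomology)
    (P : ∀ a c : ℕ, Matrix (Y.pow c).ι (Y.pow a).ι ℚ → Prop) (q : Matrix Y.ι Y.ι ℚ)
    (pt : Y.ι → ℚ) : Prop where
  point : P 0 0 (1 : Matrix (Fin 0 → Y.ι) (Fin 0 → Y.ι) ℚ)
  diagonal : P 1 1 (1 : Matrix (Fin 1 → Y.ι) (Fin 1 → Y.ι) ℚ)
  unit : P 0 1 (Matrix.of fun (x : Fin 1 → Y.ι) (_ : Fin 0 → Y.ι) => Y.one (x 0))
  ptClass : P 0 1 (Matrix.of fun (x : Fin 1 → Y.ι) (_ : Fin 0 → Y.ι) => pt (x 0))
  form : P 2 0 (Matrix.of fun (_ : Fin 0 → Y.ι) (y : Fin 2 → Y.ι) => q (y 0) (y 1))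

/-- The form `q` is a Poincaré form with class of a point `pt`: it is nondegenerate and a morphism of
Hodge structures, `pt` is a Hodge class, and `q(1, pt)` is not zero. -/
structure IsPoincare (Y : Cohomology) (q : Matrix Y.ι Y.ι ℚ) (pt : Y.ι → ℚ) : Prop where
  det_ne : q.det ≠ 0
  skew : ∀ x y : Y.ι → ℂ, form q (Y.z *ᵥ x) y + form q x (Y.z *ᵥ y) = 0
  pt_hodge : IsHodge Y pt
  pairing : Y.one ⬝ᵥ q *ᵥ pt ≠ 0

end Pool.Agent.K4H54.PL
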