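import Mathlib
import Pool.Agent.K4H35.UK.Mean

/-!
# The growth of the moments of a real character
-/

set_option autoImplicit false
set_option linter.unusedSectionVars false

namespace Pool.Agent.K4H54.PL

open Pool.Agent.K4H35.UK

variable {Γ : Type} [Group Γ] [TopologicalSpace Γ] [CompactSpace Γ]

/-- the moments of even order -/
theorem growth_even {I : C(Γ, ℂ) →ₗ[ℂ] ℂ} (hI : IsMean I) (χ : C(Γ, ℂ)) {N : ℕ}
    (hre : ∀ g, (χ g).im = 0) (hb : ∀ g, ‖χ g‖ ≤ N) (h : ℕ → ℕ)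
    (hh : ∀ m, I (χ ^ m) = h m) (n m : ℕ) (hm : Even m) : h (n + m) ≤ N ^ n * h m := by
  have h1 : (I (χ ^ (n + m) - ((N ^ n : ℕ) : ℂ) • χ ^ m)).re ≤ 0 := by
    refine hI.re_le _ _ fun g => ?_
    rw [ContinuousMap.sub_apply, ContinuousMap.smul_apply, ContinuousMap.pow_apply,
      ContinuousMap.pow_apply]
    have h2 : χ g = (((χ g).re : ℝ) : ℂ) := by
      apply Complex.ext
      · rw [Complex.ofReal_re]
      · rw [Complex.ofReal_im, hre]
    rw [h2, smul_eq_mul, ← Complex.ofReal_pow, ← Complex.ofReal_pow, ← Complex.ofReal_natCast,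
      ← Complex.ofReal_mul, ← Complex.ofReal_sub, Complex.ofReal_re, pow_add, ← sub_mul]
    have h3 : 0 ≤ (χ g).re ^ m := hm.pow_nonneg _
    have h4 : (χ g).re ^ n ≤ (N ^ n : ℕ) := by
      push_cast
      refine (le_abs_self _).trans ?_
      rw [abs_pow]
      refine pow_le_pow_left₀ (abs_nonneg _) ?_ _
      exact (Complex.abs_re_le_norm _).trans (hb g)
    exact mul_nonpos_of_nonpos_of_nonneg (sub_nonpos.2 h4) h3
  rw [map_sub, map_smul, hh, hh, smul_eq_mul] at h1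
  have h2 : ((h (n + m) : ℂ) - ((N ^ n : ℕ) : ℂ) * (h m : ℂ)).re =
      (h (n + m) : ℝ) - ((N ^ n * h m : ℕ) : ℝ) := by
    rw [← Nat.cast_mul, Complex.sub_re, Complex.natCast_re, Complex.natCast_re]
  rw [h2, sub_nonpos] at h1
  exact_mod_cast h1

/-- **The growth of the moments of a real character.** -/
theorem growth {I : C(Γ, ℂ) →ₗ[ℂ] ℂ} (hI : IsMean I) (χ : C(Γ, ℂ)) {N : ℕ} (hN : 1 ≤ N)
    (hre : ∀ g, (χ g).im = 0) (hb : ∀ g, ‖χ g‖ ≤ N) (h : ℕ → ℕ)
    (hh : ∀ m, I (χ ^ m) = h m) (hmono : ∀ m, h m ≤ h (m + 1)) (n m : ℕ) :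
    h (n + m) ≤ N ^ (n + 1) * h m := by
  rcases Nat.even_or_odd m with hm | hm
  · refine (growth_even hI χ hre hb h hh n m hm).trans (Nat.mul_le_mul_right _ ?_)
    exact Nat.pow_le_pow_right hN (Nat.le_succ n)
  · obtain ⟨j, rfl⟩ := hm
    have h1 := growth_even hI χ hre hb h hh (n + 1) (2 * j) (even_two_mul j)
    have h2 : n + (2 * j + 1) = n + 1 + 2 * j := by ring
    rw [h2]
    exact h1.trans (Nat.mul_le_mul_left _ (hmono _))

end Pool.Agent.K4H54.PL
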