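import Mathlib

/-!
# The proportion of a subsystem of tensors

`H m` and `H' m` are spaces of tensors and of forms of degree `m` which are dual to each other, and
`B m`, `B' m` are subspaces which are closed under contractions. If `B n` is not equal to `H n` then
the dimension of `B m` is at most `(1 - c)` times the dimension of `H m` for all `m ≥ n`.
-/

set_option autoImplicit false
set_option linter.unusedSectionVars false

namespace Pool.Agent.K4H54.PL

open Module

variable {k : Type} [Field k] {ι : Type} [Fintype ι]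

/-- the tensors of degree `m` -/
abbrev T (k : Type) (ι : Type) (m : ℕ) : Type := (Fin m → ι) → k

/-- the tensor product -/
def ten {m n : ℕ} (x : T k ι m) (y : T k ι n) : T k ι (m + n) := fun u =>
  x (fun i => u (Fin.castAdd n i)) * y (fun i => u (Fin.natAdd m i))

/-- the contraction of the last `m` places with a form -/
def ctr {n m : ℕ} (b : T k ι (n + m)) (ψ : T k ι m) : T k ι n := fun x =>
  ∑ y, b (Fin.append x y) * ψ y

theorem dot_ten {n m : ℕ} (φ : T k ι n) (ψ : T k ι m) (b : T k ι (n + m)) :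
    ten φ ψ ⬝ᵥ b = φ ⬝ᵥ ctr b ψ := by
  unfold dotProduct ten ctr
  rw [← (Fin.appendEquiv n m).sum_comp, Fintype.sum_prod_type]
  refine Finset.sum_congr rfl fun x _ => ?_
  rw [Finset.mul_sum]
  refine Finset.sum_congr rfl fun y _ => ?_
  have h1 : (fun i => (Fin.appendEquiv n m) (x, y) (Fin.castAdd m i)) = x := by
    funext i
    exact Fin.append_left x y i
  have h2 : (fun i => (Fin.appendEquiv n m) (x, y) (Fin.natAdd n i)) = y := by
    funext i
    exact Fin.append_right x y i
  rw [h1, h2]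
  have h3 : (Fin.appendEquiv n m) (x, y) = Fin.append x y := rfl
  rw [h3]
  ring

theorem ctr_ten {n m : ℕ} (z : T k ι n) (w ψ : T k ι m) :
    ctr (ten z w) ψ = (w ⬝ᵥ ψ) • z := by
  funext x
  unfold ctr ten dotProduct
  rw [Pi.smul_apply, smul_eq_mul, Finset.sum_mul]
  refine Finset.sum_congr rfl fun y _ => ?_
  have h1 : (fun i => Fin.append x y (Fin.castAdd m i)) = x := by
    funext i
    exact Fin.append_left x y i
  have h2 : (fun i => Fin.append x y (Fin.natAdd n i)) = y := by
    funext i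
    exact Fin.append_right x y i
  rw [h1, h2]
  ring

/-- tensoring with a fixed form on the left -/
def tenL {n : ℕ} (φ : T k ι n) (m : ℕ) : T k ι m →ₗ[k] T k ι (n + m) where
  toFun ψ := ten φ ψ
  map_add' a b := by
    funext u
    exact mul_add _ _ _
  map_smul' c a := by
    funext u
    exact mul_left_comm _ _ _

/-- tensoring with a fixed tensor on the right -/
def tenR {n : ℕ} (w : T k ι n) (m : ℕ) : T k ι m →ₗ[k] T k ι (m + n) where
  toFun z := ten z w
  map_add' a b := by
    funext u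
    exact add_mul _ _ _
  map_smul' c a := by
    funext u
    exact mul_assoc _ _ _

theorem tenL_injective {n : ℕ} {φ : T k ι n} (hφ : φ ≠ 0) (m : ℕ) :
    Function.Injective (tenL φ m) := by
  rw [injective_iff_map_eq_zero]
  intro ψ h
  obtain ⟨x, hx⟩ : ∃ x, φ x ≠ 0 := by
    by_contra hcon
    push Not at hcon
    exact hφ (funext hcon)
  funext y
  have h1 := congrFun h (Fin.append x y)
  have h2 : φ x * ψ y = 0 := by
    have h3 : tenL φ m ψ (Fin.append x y) = φ x * ψ y := by
      change φ (fun i => Fin.append x y (Fin.castAdd m i)) *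
        ψ (fun i => Fin.append x y (Fin.natAdd n i)) = _
      have e1 : (fun i => Fin.append x y (Fin.castAdd m i)) = x := by
        funext i
        exact Fin.append_left x y i
      have e2 : (fun i => Fin.append x y (Fin.natAdd n i)) = y := by
        funext i
        exact Fin.append_right x y i
      rw [e1, e2]
    rw [← h3]
    exact h1
  exact (mul_eq_zero.1 h2).resolve_left hx

/-- **The dimensions of orthogonal subspaces.** -/
theorem finrank_add_le {N : ℕ} {H A B : Submodule k (T k ι N)} (hBH : B ≤ H)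
    (hnd : ∀ φ ∈ A, (∀ x ∈ H, φ ⬝ᵥ x = 0) → φ = 0) (horth : ∀ φ ∈ A, ∀ b ∈ B, φ ⬝ᵥ b = 0) :
    finrank k A + finrank k B ≤ finrank k H := by
  let B0 : Submodule k H := B.comap H.subtype
  have hB0 : finrank k B0 = finrank k B :=
    LinearEquiv.finrank_eq (Submodule.comapSubtypeEquivOfLe hBH)
  let f : A →ₗ[k] Dual k H :=
    { toFun := fun φ =>
        { toFun := fun x => (φ : T k ι N) ⬝ᵥ (x : T k ι N)
          map_add' := fun x y => dotProduct_add _ _ _
          map_smul' := fun c x => by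
            rw [RingHom.id_apply]
            exact dotProduct_smul c _ _ }
      map_add' := fun φ ψ => by
        ext x
        exact add_dotProduct _ _ _
      map_smul' := fun c φ => by
        ext x
        exact smul_dotProduct c _ _ }
  have hf : Function.Injective f := by
    rw [injective_iff_map_eq_zero]
    intro φ h
    apply Subtype.ext
    refine hnd φ φ.2 fun x hx => ?_
    exact LinearMap.congr_fun h ⟨x, hx⟩
  have hr : LinearMap.range f ≤ B0.dualAnnihilator := by
    rintro _ ⟨φ, rfl⟩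
    rw [Submodule.mem_dualAnnihilator]
    intro x hx
    exact horth φ φ.2 x hx
  have h1 : finrank k A ≤ finrank k B0.dualAnnihilator := by
    rw [← LinearMap.finrank_range_of_inj hf]
    exact Submodule.finrank_mono hr
  have h2 := Subspace.finrank_add_finrank_dualAnnihilator_eq B0
  omega

/-- **The gap.** -/
theorem gap {H H' B B' : ∀ m, Submodule k (T k ι m)} (hBH : ∀ m, B m ≤ H m)
    (hnd : ∀ m, ∀ φ ∈ H' m, (∀ x ∈ H m, φ ⬝ᵥ x = 0) → φ = 0)
    (hnd' : ∀ m, ∀ x ∈ H m, (∀ φ ∈ H' m, x ⬝ᵥ φ = 0) → x = 0)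
    (hten : ∀ n m, ∀ φ ∈ H' n, ∀ ψ ∈ B' m, ten φ ψ ∈ H' (n + m))
    (hctr : ∀ n m, ∀ b ∈ B (n + m), ∀ ψ ∈ B' m, ctr b ψ ∈ B n)
    (hdim : ∀ m, finrank k (B m) ≤ finrank k (B' m)) {n : ℕ} (hn : B n ≠ H n) (m : ℕ) :
    finrank k (B m) + finrank k (B (n + m)) ≤ finrank k (H (n + m)) := by
  have hlt : finrank k (B n) < finrank k (H n) := Submodule.finrank_lt_finrank_of_lt
    (lt_of_le_of_ne (hBH n) hn)
  have hle : finrank k (H n) ≤ finrank k (H' n) := by
    have h1 := finrank_add_le (H := H' n) (A := H n) (B := ⊥) bot_le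
      (fun x hx h => hnd' n x hx h) (fun x _ b hb => by
        rw [(Submodule.mem_bot k).1 hb, dotProduct_zero])
    rw [finrank_bot] at h1
    exact h1
  obtain ⟨φ, hφ, hφ0, hφB⟩ : ∃ φ ∈ H' n, φ ≠ 0 ∧ ∀ b ∈ B n, φ ⬝ᵥ b = 0 := by
    let f : H' n →ₗ[k] Dual k (B n) :=
      { toFun := fun φ =>
          { toFun := fun x => (φ : T k ι n) ⬝ᵥ (x : T k ι n)
            map_add' := fun x y => dotProduct_add _ _ _
            map_smul' := fun c x => by
              rw [RingHom.id_apply]
              exact dotProduct_smul c _ _ }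
        map_add' := fun φ ψ => by
          ext x
          exact add_dotProduct _ _ _
        map_smul' := fun c φ => by
          ext x
          exact smul_dotProduct c _ _ }
    have h1 : LinearMap.ker f ≠ ⊥ := by
      refine LinearMap.ker_ne_bot_of_finrank_lt ?_
      rw [Subspace.dual_finrank_eq]
      omega
    obtain ⟨φ, hφ, hφ0⟩ := Submodule.exists_mem_ne_zero_of_ne_bot h1
    refine ⟨φ, φ.2, fun h => hφ0 (Subtype.ext h), fun b hb => ?_⟩
    exact LinearMap.congr_fun (LinearMap.mem_ker.1 hφ) ⟨b, hb⟩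
  have h1 := finrank_add_le (H := H (n + m)) (A := (B' m).map (tenL φ m)) (B := B (n + m))
    (hBH _) (fun χ hχ h => hnd (n + m) χ (by
      obtain ⟨ψ, hψ, rfl⟩ := hχ
      exact hten n m φ hφ ψ hψ) h) (by
      rintro _ ⟨ψ, hψ, rfl⟩ b hb
      change ten φ ψ ⬝ᵥ b = 0
      rw [dot_ten]
      exact hφB _ (hctr n m b hb ψ hψ))
  have h2 : finrank k (B' m) = finrank k ((B' m).map (tenL φ m)) :=
    LinearEquiv.finrank_eq (Submodule.equivMapOfInjective _ (tenL_injective hφ0 m) _)
  have := hdim m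
  omega

/-- The part outside grows. -/
theorem grow {H B : ∀ m, Submodule k (T k ι m)} (hBH : ∀ m, B m ≤ H m) {v l : T k ι 1}
    (hlv : v ⬝ᵥ l ≠ 0) (hv : ∀ m, ∀ x ∈ H m, ten x v ∈ H (m + 1))
    (hl : ∀ m, ∀ b ∈ B (m + 1), ctr b l ∈ B m) (m : ℕ) :
    finrank k (H m) + finrank k (B (m + 1)) ≤ finrank k (H (m + 1)) + finrank k (B m) := by
  have hinj : Function.Injective (tenR (k := k) v m) := by
    rw [injective_iff_map_eq_zero]
    intro z hz
    have h1 : ctr (ten z v) l = 0 := by
      have h2 : ten z v = 0 := hz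
      rw [h2]
      funext x
      exact Finset.sum_eq_zero fun y _ => zero_mul _
    rw [ctr_ten] at h1
    exact (smul_eq_zero.1 h1).resolve_left hlv
  have h1 : finrank k (H m) = finrank k ((H m).map (tenR v m)) :=
    LinearEquiv.finrank_eq (Submodule.equivMapOfInjective _ hinj _)
  have h2 : finrank k (B m) = finrank k ((B m).map (tenR v m)) :=
    LinearEquiv.finrank_eq (Submodule.equivMapOfInjective _ hinj _)
  have h3 := Submodule.finrank_sup_add_finrank_inf_eq ((H m).map (tenR v m)) (B (m + 1))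
  have h4 : (H m).map (tenR v m) ⊔ B (m + 1) ≤ H (m + 1) := by
    refine sup_le ?_ (hBH _)
    rintro _ ⟨z, hz, rfl⟩
    exact hv m z hz
  have h5 : (H m).map (tenR v m) ⊓ B (m + 1) ≤ (B m).map (tenR v m) := by
    rintro _ ⟨⟨z, hz, rfl⟩, hb⟩
    refine ⟨z, ?_, rfl⟩
    have h6 := hl m _ hb
    have h7 : ctr (tenR v m z) l = (v ⬝ᵥ l) • z := ctr_ten z v l
    rw [h7] at h6
    have h8 := (B m).smul_mem (v ⬝ᵥ l)⁻¹ h6
    rwa [smul_smul, inv_mul_cancel₀ hlv, one_smul] at h8
  have h6 := Submodule.finrank_mono h4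
  have h7 := Submodule.finrank_mono h5
  omega

theorem grow' {H B : ∀ m, Submodule k (T k ι m)} (hBH : ∀ m, B m ≤ H m) {v l : T k ι 1}
    (hlv : v ⬝ᵥ l ≠ 0) (hv : ∀ m, ∀ x ∈ H m, ten x v ∈ H (m + 1))
    (hl : ∀ m, ∀ b ∈ B (m + 1), ctr b l ∈ B m) (m n : ℕ) :
    finrank k (H m) + finrank k (B (n + m)) ≤ finrank k (H (n + m)) + finrank k (B m) := by
  induction n with
  | zero => rw [Nat.zero_add]
  | succ n ih =>
    have h1 := grow hBH hlv hv hl (n + m)
    have h2 : n + 1 + m = n + m + 1 := by omega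
    rw [h2]
    omega

/-- **The proportion of a system which is not complete.** -/
theorem proportion {H H' B B' : ∀ m, Submodule k (T k ι m)} (hBH : ∀ m, B m ≤ H m)
    (hnd : ∀ m, ∀ φ ∈ H' m, (∀ x ∈ H m, φ ⬝ᵥ x = 0) → φ = 0)
    (hnd' : ∀ m, ∀ x ∈ H m, (∀ φ ∈ H' m, x ⬝ᵥ φ = 0) → x = 0)
    (hten : ∀ n m, ∀ φ ∈ H' n, ∀ ψ ∈ B' m, ten φ ψ ∈ H' (n + m))
    (hctr : ∀ n m, ∀ b ∈ B (n + m), ∀ ψ ∈ B' m, ctr b ψ ∈ B n)
    (hdim : ∀ m, finrank k (B m) ≤ finrank k (B' m)) {v l : T k ι 1}
    (hlv : v ⬝ᵥ l ≠ 0) (hv : ∀ m, ∀ x ∈ H m, ten x v ∈ H (m + 1)) (hl : l ∈ B' 1)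
    {n : ℕ} (hn : B n ≠ H n) {C : ℕ} (hC : ∀ m, finrank k (H (n + m)) ≤ C * finrank k (H m))
    (m : ℕ) (hm : n ≤ m) :
    2 * C * finrank k (B m) + finrank k (H m) ≤ 2 * C * finrank k (H m) := by
  obtain ⟨j, rfl⟩ := Nat.exists_eq_add_of_le hm
  have h1 := gap hBH hnd hnd' hten hctr hdim hn j
  have h2 := grow' hBH hlv hv (fun m b hb => hctr m 1 b hb l hl) j n
  have h3 := hC j
  have h4 : finrank k (H j) + 2 * finrank k (B (n + j)) ≤ 2 * finrank k (H (n + j)) := by omega
  have h5 := Nat.mul_le_mul_left C h4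
  nlinarith

end Pool.Agent.K4H54.PL
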