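import Mathlib
import Pool.Agent.K4H54.PL.Gap

/-!
# Planar tensor calculus

Families of correspondences between tensor powers which are closed under linear combinations,
compositions and exterior products (without permutations of the factors).
-/

set_option autoImplicit false
set_option linter.unusedSectionVars false

namespace Pool.Agent.K4H54.PL

open Matrix Module

noncomputable section

variable {k : Type} [Field k] {ι : Type} [Fintype ι] [DecidableEq ι]

/-- The exterior product of two correspondences. -/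
def ex {a c a' c' : ℕ} (F : Matrix (Fin c → ι) (Fin a → ι) k)
    (G : Matrix (Fin c' → ι) (Fin a' → ι) k) :
    Matrix (Fin (c + c') → ι) (Fin (a + a') → ι) k :=
  Matrix.of fun x y => F (fun i => x (Fin.castAdd c' i)) (fun i => y (Fin.castAdd a' i)) *
    G (fun i => x (Fin.natAdd c i)) (fun i => y (Fin.natAdd a i))

/-- The family is closed under combinations, compositions and exterior products. -/
structure Cl (R : ∀ a c : ℕ, Matrix (Fin c → ι) (Fin a → ι) k → Prop) : Prop where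
  add : ∀ {a c : ℕ} {F G : Matrix (Fin c → ι) (Fin a → ι) k}, R a c F → R a c G → R a c (F + G)
  smul : ∀ {a c : ℕ} (r : k) {F : Matrix (Fin c → ι) (Fin a → ι) k}, R a c F → R a c (r • F)
  comp : ∀ {a b c : ℕ} {F : Matrix (Fin b → ι) (Fin a → ι) k}
    {G : Matrix (Fin c → ι) (Fin b → ι) k}, R a b F → R b c G → R a c (G * F)
  prod : ∀ {a c a' c' : ℕ} {F : Matrix (Fin c → ι) (Fin a → ι) k}
    {G : Matrix (Fin c' → ι) (Fin a' → ι) k}, R a c F → R a' c' G →
    R (a + a') (c + c') (ex F G)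

/-- a class as a column -/
def cl {m : ℕ} (x : T k ι m) : Matrix (Fin m → ι) (Fin 0 → ι) k := Matrix.of fun u _ => x u

/-- a form as a row -/
def ro {m : ℕ} (φ : T k ι m) : Matrix (Fin 0 → ι) (Fin m → ι) k := Matrix.of fun _ u => φ u

theorem exists_cl {m : ℕ} (F : Matrix (Fin m → ι) (Fin 0 → ι) k) : ∃ x, F = cl x :=
  ⟨fun u => F u Fin.elim0, by
    ext u w
    rw [Subsingleton.elim w Fin.elim0]
    rfl⟩

theorem exists_ro {m : ℕ} (F : Matrix (Fin 0 → ι) (Fin m → ι) k) : ∃ x, F = ro x :=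
  ⟨fun u => F Fin.elim0 u, by
    ext w u
    rw [Subsingleton.elim w Fin.elim0]
    rfl⟩

theorem ro_mul_cl {m : ℕ} (φ x : T k ι m) (u w : Fin 0 → ι) : (ro φ * cl x) u w = φ ⬝ᵥ x := rfl

/-- the subspace of the correspondences in a closed family -/
def VV (R : ∀ a c : ℕ, Matrix (Fin c → ι) (Fin a → ι) k → Prop) (hR : Cl R)
    (h0 : ∀ a c, R a c 0) (a c : ℕ) : Submodule k (Matrix (Fin c → ι) (Fin a → ι) k) where
  carrier := {F | R a c F}
  zero_mem' := h0 a c
  add_mem' := fun hx hy => hR.add hx hy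
  smul_mem' := fun r _ hx => hR.smul r hx

/-- the subspace of the classes which are in a closed family -/
def BB (R : ∀ a c : ℕ, Matrix (Fin c → ι) (Fin a → ι) k → Prop) (hR : Cl R)
    (h0 : ∀ a c, R a c 0) (m : ℕ) : Submodule k (T k ι m) where
  carrier := {x | R 0 m (cl x)}
  zero_mem' := h0 0 m
  add_mem' := fun {x y} hx hy => hR.add (F := cl x) (G := cl y) hx hy
  smul_mem' := fun r x hx => hR.smul r (F := cl x) hx

/-- the subspace of the forms which are in a closed family -/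
def BB' (R : ∀ a c : ℕ, Matrix (Fin c → ι) (Fin a → ι) k → Prop) (hR : Cl R)
    (h0 : ∀ a c, R a c 0) (m : ℕ) : Submodule k (T k ι m) where
  carrier := {x | R m 0 (ro x)}
  zero_mem' := h0 m 0
  add_mem' := fun {x y} hx hy => hR.add (F := ro x) (G := ro y) hx hy
  smul_mem' := fun r x hx => hR.smul r (F := ro x) hx

/-- the classes as a linear map to matrices -/
def clL (k : Type) [Field k] (ι : Type) (m : ℕ) :
    T k ι m →ₗ[k] Matrix (Fin m → ι) (Fin 0 → ι) k where
  toFun := cl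
  map_add' _ _ := rfl
  map_smul' _ _ := rfl

/-- the forms as a linear map to matrices -/
def roL (k : Type) [Field k] (ι : Type) (m : ℕ) :
    T k ι m →ₗ[k] Matrix (Fin 0 → ι) (Fin m → ι) k where
  toFun := ro
  map_add' _ _ := rfl
  map_smul' _ _ := rfl

theorem clL_injective (m : ℕ) : Function.Injective (clL k ι m) := by
  intro x y h
  funext u
  exact congrFun (congrFun h u) Fin.elim0

theorem roL_injective (m : ℕ) : Function.Injective (roL k ι m) := by
  intro x y h
  funext u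
  exact congrFun (congrFun h Fin.elim0) u

section closed

variable {R : ∀ a c : ℕ, Matrix (Fin c → ι) (Fin a → ι) k → Prop} (hR : Cl R)
  (h0 : ∀ a c, R a c 0)

theorem finrank_BB_VV (m : ℕ) : finrank k (BB R hR h0 m) = finrank k (VV R hR h0 0 m) := by
  rw [LinearEquiv.finrank_eq (Submodule.equivMapOfInjective _ (clL_injective m) (BB R hR h0 m))]
  have h1 : (BB R hR h0 m).map (clL k ι m) = VV R hR h0 0 m := by
    refine le_antisymm ?_ ?_
    · rintro _ ⟨x, hx, rfl⟩
      exact hx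
    · intro F hF
      obtain ⟨x, rfl⟩ := exists_cl F
      exact ⟨x, hF, rfl⟩
  rw [h1]

theorem finrank_BB'_VV (m : ℕ) : finrank k (BB' R hR h0 m) = finrank k (VV R hR h0 m 0) := by
  rw [LinearEquiv.finrank_eq (Submodule.equivMapOfInjective _ (roL_injective m) (BB' R hR h0 m))]
  have h1 : (BB' R hR h0 m).map (roL k ι m) = VV R hR h0 m 0 := by
    refine le_antisymm ?_ ?_
    · rintro _ ⟨x, hx, rfl⟩
      exact hx
    · intro F hF
      obtain ⟨x, rfl⟩ := exists_ro F
      exact ⟨x, hF, rfl⟩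
  rw [h1]

theorem span_eq_VV (a c : ℕ) :
    Submodule.span k {F : Matrix (Fin c → ι) (Fin a → ι) k | R a c F} = VV R hR h0 a c :=
  Submodule.span_eq (VV R hR h0 a c)

include hR in
theorem ten_cl {n m : ℕ} {x : T k ι n} {y : T k ι m} (hx : R 0 n (cl x)) (hy : R 0 m (cl y)) :
    R 0 (n + m) (cl (ten x y)) :=
  hR.prod hx hy

include hR in
theorem ten_ro {n m : ℕ} {x : T k ι n} {y : T k ι m} (hx : R n 0 (ro x)) (hy : R m 0 (ro y)) :
    R (n + m) 0 (ro (ten x y)) :=
  hR.prod hx hy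

include hR in
theorem ctr_cl (h1 : ∀ n, R n n 1) {n m : ℕ} {b : T k ι (n + m)} {ψ : T k ι m}
    (hb : R 0 (n + m) (cl b)) (hψ : R m 0 (ro ψ)) : R 0 n (cl (ctr b ψ)) := by
  have h2 : R 0 n ((ex (1 : Matrix (Fin n → ι) (Fin n → ι) k) (ro ψ) :
      Matrix (Fin (n + 0) → ι) (Fin (n + m) → ι) k) * cl b) := hR.comp hb (hR.prod (h1 n) hψ)
  have h3 : (ex (1 : Matrix (Fin n → ι) (Fin n → ι) k) (ro ψ) :
      Matrix (Fin (n + 0) → ι) (Fin (n + m) → ι) k) * cl b = cl (ctr b ψ) := by
    refine Matrix.ext fun (x : Fin n → ι) w => ?_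
    rw [Matrix.mul_apply, ← (Fin.appendEquiv n m).sum_comp, Fintype.sum_prod_type,
      Finset.sum_eq_single x]
    · refine Finset.sum_congr rfl fun y _ => ?_
      change (1 : Matrix (Fin n → ι) (Fin n → ι) k) (fun i => x (Fin.castAdd 0 i))
        (fun i => Fin.append x y (Fin.castAdd m i)) *
        ψ (fun i => Fin.append x y (Fin.natAdd n i)) * b (Fin.append x y) =
        b (Fin.append x y) * ψ y
      have e1 : (fun i => Fin.append x y (Fin.castAdd m i)) = x := by
        funext i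
        exact Fin.append_left x y i
      have e2 : (fun i => Fin.append x y (Fin.natAdd n i)) = y := by
        funext i
        exact Fin.append_right x y i
      have e3 : (fun i => x (Fin.castAdd 0 i)) = x := rfl
      rw [e1, e2, e3, one_apply_eq, one_mul]
      exact mul_comm _ _
    · intro x' _ hx'
      refine Finset.sum_eq_zero fun y _ => ?_
      change (1 : Matrix (Fin n → ι) (Fin n → ι) k) (fun i => x (Fin.castAdd 0 i))
        (fun i => Fin.append x' y (Fin.castAdd m i)) *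
        ψ (fun i => Fin.append x' y (Fin.natAdd n i)) * b (Fin.append x' y) = 0
      have e1 : (fun i => Fin.append x' y (Fin.castAdd m i)) = x' := by
        funext i
        exact Fin.append_left x' y i
      have e3 : (fun i => x (Fin.castAdd 0 i)) = x := rfl
      rw [e1, e3, Matrix.one_apply_ne (Ne.symm hx'), zero_mul, zero_mul]
    · intro h
      exact absurd (Finset.mem_univ _) h
  rwa [h3] at h2

theorem ex_one (m n : ℕ) : ex (1 : Matrix (Fin m → ι) (Fin m → ι) k)
    (1 : Matrix (Fin n → ι) (Fin n → ι) k) = 1 := by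
  ext x y
  change (1 : Matrix (Fin m → ι) (Fin m → ι) k) (fun i => x (Fin.castAdd n i))
    (fun i => y (Fin.castAdd n i)) * (1 : Matrix (Fin n → ι) (Fin n → ι) k)
    (fun i => x (Fin.natAdd m i)) (fun i => y (Fin.natAdd m i)) = _
  rw [Matrix.one_apply, Matrix.one_apply, Matrix.one_apply]
  by_cases h : x = y
  · subst h
    simp
  · rw [if_neg h]
    by_cases h1 : (fun i => x (Fin.castAdd n i)) = (fun i => y (Fin.castAdd n i))
    · have h3 : ¬ (fun i => x (Fin.natAdd m i)) = (fun i => y (Fin.natAdd m i)) := by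
        intro h2
        apply h
        funext i
        refine Fin.addCases (fun j => ?_) (fun j => ?_) i
        · exact congrFun h1 j
        · exact congrFun h2 j
      rw [if_neg h3, mul_zero]
    · rw [if_neg h1, zero_mul]

include hR in
theorem Cl.one (h0 : R 0 0 1) (h1 : R 1 1 1) : ∀ n, R n n 1
  | 0 => h0
  | n + 1 => by
    have h2 := hR.prod (Cl.one h0 h1 n) h1
    rwa [ex_one] at h2

end closed

/-- appending one entry -/
def sn {c : ℕ} (x : Fin c → ι) (i : ι) : Fin (c + 1) → ι := Fin.snoc x i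

theorem sn_castSucc {c : ℕ} (x : Fin c → ι) (i : ι) (s : Fin c) : sn x i s.castSucc = x s :=
  Fin.snoc_castSucc (α := fun _ => ι) _ _ _

theorem sn_last {c : ℕ} (x : Fin c → ι) (i : ι) : sn x i (Fin.last c) = i :=
  Fin.snoc_last (α := fun _ => ι) _ _

theorem sum_sn {c : ℕ} (f : (Fin (c + 1) → ι) → k) : ∑ u, f u = ∑ x, ∑ i, f (sn x i) := by
  rw [← (Fin.snocEquiv (fun _ : Fin (c + 1) => ι)).sum_comp, Fintype.sum_prod_type_right]
  rfl

/-- the form as a correspondence -/
def fq (q : Matrix ι ι k) : Matrix (Fin 0 → ι) (Fin 2 → ι) k := Matrix.of fun _ y => q (y 0) (y 1)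

theorem ex_fq (q : Matrix ι ι k) {c : ℕ} (x x' : Fin c → ι) (i j : ι) :
    (ex (1 : Matrix (Fin c → ι) (Fin c → ι) k) (fq q) :
      Matrix (Fin (c + 0) → ι) (Fin (c + 2) → ι) k) x (sn (sn x' i) j) =
      (if x = x' then 1 else 0) * q i j := by
  change (1 : Matrix (Fin c → ι) (Fin c → ι) k) (fun s => x (Fin.castAdd 0 s))
    (fun s => sn (sn x' i) j (Fin.castAdd 2 s)) *
    q (sn (sn x' i) j (Fin.natAdd c (0 : Fin 2))) (sn (sn x' i) j (Fin.natAdd c (1 : Fin 2))) = _
  have e1 : (fun s => sn (sn x' i) j (Fin.castAdd 2 s)) = x' := by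
    funext s
    have h : (Fin.castAdd 2 s : Fin (c + 2)) = (s.castSucc).castSucc := rfl
    rw [h, sn_castSucc, sn_castSucc]
  have e2 : (Fin.natAdd c (0 : Fin 2) : Fin (c + 2)) = (Fin.last c).castSucc := rfl
  have e3 : (Fin.natAdd c (1 : Fin 2) : Fin (c + 2)) = Fin.last (c + 1) := rfl
  rw [e1, e2, e3, sn_castSucc, sn_last, sn_last]
  have e4 : (fun s => x (Fin.castAdd 0 s)) = x := rfl
  rw [e4, Matrix.one_apply]

theorem ex_id {a c : ℕ} (F : Matrix (Fin (c + 1) → ι) (Fin a → ι) k) (x : Fin (c + 1) → ι)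
    (y : Fin a → ι) (j l : ι) :
    (ex F (1 : Matrix (Fin 1 → ι) (Fin 1 → ι) k) :
        Matrix (Fin (c + 1 + 1) → ι) (Fin (a + 1) → ι) k) (sn x j) (sn y l) =
      F x y * (if j = l then 1 else 0) := by
  change F (fun s => sn x j (Fin.castAdd 1 s)) (fun s => sn y l (Fin.castAdd 1 s)) *
    (1 : Matrix (Fin 1 → ι) (Fin 1 → ι) k) (fun s => sn x j (Fin.natAdd (c + 1) s))
      (fun s => sn y l (Fin.natAdd a s)) = _
  have e1 : (fun s => sn x j (Fin.castAdd 1 s)) = x := by
    funext s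
    exact sn_castSucc x j s
  have e2 : (fun s => sn y l (Fin.castAdd 1 s)) = y := by
    funext s
    exact sn_castSucc y l s
  have e3 : (fun s : Fin 1 => sn x j (Fin.natAdd (c + 1) s)) = fun _ => j := by
    funext s
    have h : (Fin.natAdd (c + 1) s : Fin (c + 1 + 1)) = Fin.last (c + 1) := by
      ext
      simp
    rw [h, sn_last]
  have e4 : (fun s : Fin 1 => sn y l (Fin.natAdd a s)) = fun _ => l := by
    funext s
    have h : (Fin.natAdd a s : Fin (a + 1)) = Fin.last a := by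
      ext
      simp
    rw [h, sn_last]
  rw [e1, e2, e3, e4, Matrix.one_apply]
  congr 1
  refine if_congr ?_ rfl rfl
  exact ⟨fun h => congrFun h 0, fun h => by rw [h]⟩

/-- one bend: `(1 ⊗ q) ∘ (F ⊗ 1)` -/
def bend (q : Matrix ι ι k) {a c : ℕ} (F : Matrix (Fin (c + 1) → ι) (Fin a → ι) k) :
    Matrix (Fin c → ι) (Fin (a + 1) → ι) k :=
  (ex (1 : Matrix (Fin c → ι) (Fin c → ι) k) (fq q) :
      Matrix (Fin (c + 0) → ι) (Fin (c + 2) → ι) k) *
      (ex F (1 : Matrix (Fin 1 → ι) (Fin 1 → ι) k) :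
        Matrix (Fin (c + 1 + 1) → ι) (Fin (a + 1) → ι) k)

theorem bend_apply (q : Matrix ι ι k) {a c : ℕ} (F : Matrix (Fin (c + 1) → ι) (Fin a → ι) k)
    (x : Fin c → ι) (y : Fin a → ι) (l : ι) : bend q F x (sn y l) = ∑ i, F (sn x i) y * q i l := by
  unfold bend
  rw [Matrix.mul_apply]
  have h1 := sum_sn (fun u : Fin (c + 1 + 1) → ι =>
    (ex (1 : Matrix (Fin c → ι) (Fin c → ι) k) (fq q) :
      Matrix (Fin (c + 0) → ι) (Fin (c + 2) → ι) k) x u *
      (ex F (1 : Matrix (Fin 1 → ι) (Fin 1 → ι) k) :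
        Matrix (Fin (c + 1 + 1) → ι) (Fin (a + 1) → ι) k) u (sn y l))
  refine h1.trans ?_
  rw [sum_sn]
  simp only [ex_fq, ex_id]
  rw [Finset.sum_eq_single x]
  · refine Finset.sum_congr rfl fun i _ => ?_
    rw [Finset.sum_eq_single l]
    · rw [if_pos rfl, if_pos rfl]
      ring
    · intro j _ hj
      rw [if_neg hj]
      ring
    · intro h
      exact absurd (Finset.mem_univ _) h
  · intro x' _ hx'
    refine Finset.sum_eq_zero fun i _ => Finset.sum_eq_zero fun j _ => ?_
    rw [if_neg (Ne.symm hx')]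
    ring
  · intro h
    exact absurd (Finset.mem_univ _) h
theorem bend_injective {q qi : Matrix ι ι k} (hq : q * qi = 1) {a c : ℕ}
    {F : Matrix (Fin (c + 1) → ι) (Fin a → ι) k} (h : bend q F = 0) : F = 0 := by
  ext u y
  obtain ⟨x, i, rfl⟩ : ∃ x i, u = sn x i := ⟨fun s => u s.castSucc, u (Fin.last c),
    (Fin.snoc_init_self (α := fun _ => ι) u).symm⟩
  have h1 : (fun j => F (sn x j) y) ᵥ* q = 0 := by
    funext l
    have h2 := congrFun (congrFun h x) (sn y l)
    rw [bend_apply] at h2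
    exact h2
  have h2 := congrArg (fun v => v ᵥ* qi) h1
  simp only [vecMul_vecMul, hq, vecMul_one, zero_vecMul] at h2
  exact congrFun h2 i

theorem bend_add (q : Matrix ι ι k) {a c : ℕ} (F G : Matrix (Fin (c + 1) → ι) (Fin a → ι) k) :
    bend q (F + G) = bend q F + bend q G := by
  unfold bend
  rw [← Matrix.mul_add]
  congr 1
  ext x y
  exact add_mul _ _ _

theorem bend_smul (q : Matrix ι ι k) {a c : ℕ} (r : k)
    (F : Matrix (Fin (c + 1) → ι) (Fin a → ι) k) : bend q (r • F) = r • bend q F := by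
  unfold bend
  rw [← Matrix.mul_smul]
  congr 1
  ext x y
  exact mul_assoc _ _ _

/-- the bend as a linear map -/
def bendL (q : Matrix ι ι k) (a c : ℕ) :
    Matrix (Fin (c + 1) → ι) (Fin a → ι) k →ₗ[k] Matrix (Fin c → ι) (Fin (a + 1) → ι) k where
  toFun := bend q
  map_add' := bend_add q
  map_smul' := bend_smul q

section closed

variable {R : ∀ a c : ℕ, Matrix (Fin c → ι) (Fin a → ι) k → Prop} (hR : Cl R)
  (h0 : ∀ a c, R a c 0)

include hR in
theorem bend_mem (h1 : ∀ n, R n n 1) {q : Matrix ι ι k} (hq : R 2 0 (fq q)) {a c : ℕ}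
    {F : Matrix (Fin (c + 1) → ι) (Fin a → ι) k} (hF : R a (c + 1) F) :
    R (a + 1) c (bend q F) :=
  hR.comp (hR.prod hF (h1 1)) (hR.prod (h1 c) hq)

theorem finrank_bend (h1 : ∀ n, R n n 1) {q qi : Matrix ι ι k} (hqi : q * qi = 1)
    (hq : R 2 0 (fq q)) (a c : ℕ) :
    finrank k (VV R hR h0 a (c + 1)) ≤ finrank k (VV R hR h0 (a + 1) c) := by
  have hinj : Function.Injective (bendL q a c) := by
    rw [injective_iff_map_eq_zero]
    intro F hF
    exact bend_injective hqi hF
  rw [LinearEquiv.finrank_eq (Submodule.equivMapOfInjective _ hinj (VV R hR h0 a (c + 1)))]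
  refine Submodule.finrank_mono ?_
  rintro _ ⟨F, hF, rfl⟩
  exact bend_mem hR h1 hq hF

theorem finrank_bends (h1 : ∀ n, R n n 1) {q qi : Matrix ι ι k} (hqi : q * qi = 1)
    (hq : R 2 0 (fq q)) (m : ℕ) : ∀ j, j ≤ m →
    finrank k (VV R hR h0 0 m) ≤ finrank k (VV R hR h0 j (m - j)) := by
  intro j
  induction j with
  | zero => exact fun _ => le_rfl
  | succ j ih =>
    intro hj
    refine (ih (by omega)).trans ?_
    have h2 : m - j = m - (j + 1) + 1 := by omega
    rw [h2]
    exact finrank_bend hR h0 h1 hqi hq j (m - (j + 1))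

theorem finrank_dual (h1 : ∀ n, R n n 1) {q qi : Matrix ι ι k} (hqi : q * qi = 1)
    (hq : R 2 0 (fq q)) (m : ℕ) :
    finrank k (BB R hR h0 m) ≤ finrank k (BB' R hR h0 m) := by
  rw [finrank_BB_VV, finrank_BB'_VV]
  have h2 := finrank_bends hR h0 h1 hqi hq m m le_rfl
  rwa [Nat.sub_self] at h2

end closed

/-- a vector as a tensor of degree one -/
def v1 (x : ι → k) : T k ι 1 := fun u => x (u 0)

theorem bend_v1 (q : Matrix ι ι k) (one : ι → k) : bend q (cl (v1 one)) = ro (v1 (one ᵥ* q)) := by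
  ext x y
  obtain ⟨y', l, rfl⟩ : ∃ (y' : Fin 0 → ι) (l : ι), y = sn y' l :=
    ⟨fun s => y s.castSucc, y (Fin.last 0), (Fin.snoc_init_self (α := fun _ => ι) y).symm⟩
  rw [bend_apply]
  change ∑ i, one (sn x i (Fin.last 0)) * q i l = ∑ i, one i * q i (sn y' l (Fin.last 0))
  rw [sn_last]
  refine Finset.sum_congr rfl fun i _ => ?_
  rw [sn_last]

theorem dot_v1 (v w : ι → k) : v1 v ⬝ᵥ v1 w = v ⬝ᵥ w := by
  unfold dotProduct
  rw [← (Equiv.funUnique (Fin 1) ι).sum_comp]
  rfl

/-- the planar data: the diagonal, the form, the unit and the class of a point -/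
structure Pl (R : ∀ a c : ℕ, Matrix (Fin c → ι) (Fin a → ι) k → Prop) (q qi : Matrix ι ι k)
    (one v : ι → k) : Prop where
  clo : Cl R
  h0 : R 0 0 1
  h1 : R 1 1 1
  form : R 2 0 (fq q)
  unit : R 0 1 (cl (v1 one))
  pt : R 0 1 (cl (v1 v))
  inv : q * qi = 1
  ne : one ⬝ᵥ q *ᵥ v ≠ 0

section pl

variable {R : ∀ a c : ℕ, Matrix (Fin c → ι) (Fin a → ι) k → Prop} {q qi : Matrix ι ι k}
  {o v : ι → k}

theorem Pl.idn (h : Pl R q qi o v) (n : ℕ) : R n n 1 := Cl.one h.clo h.h0 h.h1 n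

theorem Pl.form1 (h : Pl R q qi o v) : R 1 0 (ro (v1 (o ᵥ* q))) := by
  rw [← bend_v1]
  exact bend_mem h.clo h.idn h.form h.unit

theorem Pl.exists_out (h : Pl R q qi o v) : ∀ m, ∃ F, R 0 m F
  | 0 => ⟨_, h.h0⟩
  | m + 1 => by
    obtain ⟨F, hF⟩ := h.exists_out m
    exact ⟨_, h.clo.prod hF h.unit⟩

theorem Pl.exists_in (h : Pl R q qi o v) : ∀ m, ∃ F, R m 0 F
  | 0 => ⟨_, h.h0⟩
  | m + 1 => by
    obtain ⟨F, hF⟩ := h.exists_in m
    exact ⟨_, h.clo.prod hF h.form1⟩

theorem Pl.zero (h : Pl R q qi o v) (a c : ℕ) : R a c 0 := by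
  obtain ⟨F, hF⟩ := h.exists_in a
  obtain ⟨G, hG⟩ := h.exists_out c
  have h1 := h.clo.smul 0 (h.clo.comp hF hG)
  rwa [zero_smul] at h1

theorem Pl.hvl (h : Pl R q qi o v) : v1 v ⬝ᵥ v1 (o ᵥ* q) ≠ 0 := by
  rw [dot_v1, dotProduct_comm, ← dotProduct_mulVec]
  exact h.ne

end pl

end

end Pool.Agent.K4H54.PL
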