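import Mathlib
import Pool.Agent.K4H35.HL.Lef
import Pool.Agent.K4H35.UK.Perm
import Pool.Agent.K4H54.PL.Planar

/-!
# The proportion of the algebraic classes: the linear algebra of Hodge classes
-/

set_option autoImplicit false
set_option linter.unusedSectionVars false

namespace Pool.Agent.K4H54.PL

open Matrix Module Pool.Agent.K4H35.UK Pool.Agent.K4H35.HL Pool.Agent.W437.HP Pool.Agent.K4H35.ST

open scoped ComplexOrder

noncomputable section

variable {ι : Type} [Fintype ι] [DecidableEq ι] {D : Matrix ι ι ℂ}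
  {P : ∀ a c : ℕ, Matrix (Fin c → ι) (Fin a → ι) ℚ → Prop}

theorem closS_Hd : Cl (fun a c (F : Matrix (Fin c → ι) (Fin a → ι) ℚ) => Hd D F) where
  add := fun hF hG => hF.add hG
  smul := fun r _ hF => hF.smul r
  comp := fun hF hG => hF.comp hG
  prod := fun hF hG => hF.prod finSumFinEquiv finSumFinEquiv hG

/-- the Hodge classes -/
def HH (D : Matrix ι ι ℂ) (m : ℕ) : Submodule ℚ (T ℚ ι m) :=
  BB (fun a c (F : Matrix (Fin c → ι) (Fin a → ι) ℚ) => Hd D F) closS_Hd hd_zero m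

/-- the Hodge forms -/
def HH' (D : Matrix ι ι ℂ) (m : ℕ) : Submodule ℚ (T ℚ ι m) :=
  BB' (fun a c (F : Matrix (Fin c → ι) (Fin a → ι) ℚ) => Hd D F) closS_Hd hd_zero m

section nondeg

variable {Q Qi : Matrix ι ι ℚ}

theorem frW' (f : Fr D (cK ℂ Q)) : (f.P * f.Ri) * (f.R * f.Pi) = 1 := by
  refine mul_eq_one_comm.1 ?_
  rw [Matrix.mul_assoc, ← Matrix.mul_assoc f.Pi, f.PiP, Matrix.one_mul, f.RRi]

theorem tw_zero {W Wi : Matrix ι ι ℂ} (hW : Wi * W = 1) {a c : ℕ}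
    {F : Matrix (Fin c → ι) (Fin a → ι) ℚ} (h : tw W Wi F = 0) : F = 0 := by
  have h1 : tp (Fin c) Wi * tw W Wi F * tp (Fin a) W = cK ℂ F := by
    unfold tw
    have e1 : tp (Fin c) Wi * (tp (Fin c) W * cK ℂ F * tp (Fin a) Wi) * tp (Fin a) W =
        (tp (Fin c) Wi * tp (Fin c) W) * cK ℂ F * (tp (Fin a) Wi * tp (Fin a) W) := by
      simp only [Matrix.mul_assoc]
    rw [e1, ← tp_mul, ← tp_mul, hW, tp_one, tp_one, Matrix.one_mul, Matrix.mul_one]
  rw [h, Matrix.mul_zero, Matrix.zero_mul] at h1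
  ext i j
  have h2 := congrFun (congrFun h1 i) j
  have h3 : ((F i j : ℚ) : ℂ) = 0 := h2.symm
  exact_mod_cast h3

theorem tw_mul {W Wi : Matrix ι ι ℂ} (hW : Wi * W = 1) {a b c : ℕ}
    (F : Matrix (Fin b → ι) (Fin a → ι) ℚ) (G : Matrix (Fin c → ι) (Fin b → ι) ℚ) :
    tw W Wi G * tw W Wi F = tw W Wi (G * F) := by
  unfold tw
  have e1 : tp (Fin c) W * cK ℂ G * tp (Fin b) Wi * (tp (Fin b) W * cK ℂ F * tp (Fin a) Wi) =
      tp (Fin c) W * (cK ℂ G * (tp (Fin b) Wi * tp (Fin b) W) * cK ℂ F) * tp (Fin a) Wi := by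
    simp only [Matrix.mul_assoc]
  rw [e1, ← tp_mul, hW, tp_one, Matrix.mul_one, ← W437.HP.cK_mul]

theorem tw_of_zero {W Wi : Matrix ι ι ℂ} {a c : ℕ} :
    tw W Wi (0 : Matrix (Fin c → ι) (Fin a → ι) ℚ) = 0 := by
  unfold tw
  have e2 : cK ℂ (0 : Matrix (Fin c → ι) (Fin a → ι) ℚ) = 0 := by
    ext i j
    exact Rat.cast_zero
  rw [e2, Matrix.mul_zero, Matrix.zero_mul]

/-- **The pairing of Hodge classes and Hodge forms is nondegenerate.** -/
theorem nondeg (hp : Pol D Q Qi) (f : Fr D (cK ℂ Q)) (m : ℕ) (φ : T ℚ ι m) (hφ : φ ∈ HH' D m)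
    (h : ∀ x ∈ HH D m, φ ⬝ᵥ x = 0) : φ = 0 := by
  have hF : Hd D (ro φ) := hφ
  obtain ⟨x, hx⟩ := exists_cl (ad Q Qi (ro φ))
  have h1 : ro φ * ad Q Qi (ro φ) = 0 := by
    rw [hx]
    ext u w
    rw [ro_mul_cl]
    refine h x ?_
    have h2 : Hd D (ad Q Qi (ro φ)) := hF.ad hp.inv hp.skew
    rw [hx] at h2
    exact h2
  have h2 : tw (f.R * f.Pi) (f.P * f.Ri) (ro φ) *
      (tw (f.R * f.Pi) (f.P * f.Ri) (ro φ))ᴴ = 0 := by
    rw [tw_star hp f hF, tw_mul (frW' f), h1, tw_of_zero]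
  have h3 := tw_zero (frW' f) (Matrix.self_mul_conjTranspose_eq_zero.1 h2)
  funext u
  exact congrFun (congrFun h3 Fin.elim0) u

theorem nondeg' (hp : Pol D Q Qi) (f : Fr D (cK ℂ Q)) (m : ℕ) (x : T ℚ ι m) (hx : x ∈ HH D m)
    (h : ∀ φ ∈ HH' D m, x ⬝ᵥ φ = 0) : x = 0 := by
  have hF : Hd D (cl x) := hx
  obtain ⟨φ, hφ⟩ := exists_ro (ad Q Qi (cl x))
  have h3 : φ ∈ HH' D m := by
    have h2 : Hd D (ad Q Qi (cl x)) := hF.ad hp.inv hp.skew
    rw [hφ] at h2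
    exact h2
  have h1 : ad Q Qi (cl x) * cl x = 0 := by
    rw [hφ]
    ext u w
    rw [ro_mul_cl, dotProduct_comm]
    exact h φ h3
  have h2 : (tw (f.R * f.Pi) (f.P * f.Ri) (cl x))ᴴ *
      tw (f.R * f.Pi) (f.P * f.Ri) (cl x) = 0 := by
    rw [tw_star hp f hF, tw_mul (frW' f), h1, tw_of_zero]
  have h4 := tw_zero (frW' f) (Matrix.conjTranspose_mul_self_eq_zero.1 h2)
  funext u
  exact congrFun (congrFun h4 u) Fin.elim0

end nondeg

/-- the Hodge correspondences in a family -/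
theorem closS_PH (hP : Cl P) : Cl (PH P D) where
  add := fun hF hG => ⟨hP.add hF.1 hG.1, hF.2.add hG.2⟩
  smul := fun r _ hF => ⟨hP.smul r hF.1, hF.2.smul r⟩
  comp := fun hF hG => ⟨hP.comp hF.1 hG.1, hF.2.comp hG.2⟩
  prod := fun hF hG => ⟨hP.prod hF.1 hG.1, hF.2.prod finSumFinEquiv finSumFinEquiv hG.2⟩

/-- **The proportion of the classes in a closed family which does not contain all Hodge classes.** -/
theorem clause1_aux {q qi : Matrix ι ι ℚ} {one v : ι → ℚ} (h : Pl (PH P D) q qi one v)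
    {Q Qi : Matrix ι ι ℚ} (hp : Pol D Q Qi) (f : Fr D (cK ℂ Q)) {n : ℕ} {x : T ℚ ι n}
    (hx : Hd D (cl x)) (hxP : ¬ P 0 n (cl x)) {C : ℕ}
    (hC : ∀ m, finrank ℚ (HH D (n + m)) ≤ C * finrank ℚ (HH D m)) (m : ℕ) (hm : n ≤ m) :
    2 * C * finrank ℚ (BB (PH P D) h.clo h.zero m) + finrank ℚ (HH D m) ≤
      2 * C * finrank ℚ (HH D m) := by
  refine proportion (k := ℚ) (H := HH D) (H' := HH' D) (B := BB (PH P D) h.clo h.zero)
    (B' := BB' (PH P D) h.clo h.zero) ?_ ?_ ?_ ?_ ?_ ?_ h.hvl ?_ ?_ ?_ hC m hm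
  · intro m y hy
    exact hy.2
  · exact nondeg hp f
  · exact nondeg' hp f
  · intro n m φ hφ ψ hψ
    exact ten_ro closS_Hd hφ hψ.2
  · intro n m b hb ψ hψ
    exact ctr_cl h.clo h.idn hb hψ
  · exact finrank_dual h.clo h.zero h.idn h.inv h.form
  · intro m y hy
    exact ten_cl closS_Hd hy h.pt.2
  · exact h.form1
  · intro h1
    have h2 : x ∈ HH D n := hx
    rw [← h1] at h2
    exact hxP h2.1

/-- The dimension of the Hodge classes is monotone. -/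
theorem mono_HH {q : Matrix ι ι ℚ} {one v : ι → ℚ} (hv : Hd D (cl (v1 v)))
    (hne : one ⬝ᵥ q *ᵥ v ≠ 0) (m : ℕ) :
    finrank ℚ (HH D m) ≤ finrank ℚ (HH D (m + 1)) := by
  have hvl : v1 v ⬝ᵥ v1 (one ᵥ* q) ≠ 0 := by
    rw [dot_v1, dotProduct_comm, ← dotProduct_mulVec]
    exact hne
  have h1 := grow (k := ℚ) (H := HH D) (B := fun _ => ⊥) (fun _ => bot_le) hvl
    (fun m y hy => ten_cl closS_Hd hy hv) (fun m b hb => by
      have h2 : b = 0 := (Submodule.mem_bot ℚ).1 hb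
      have h3 : ctr b (v1 (one ᵥ* q)) = 0 := by
        rw [h2]
        funext x
        exact Finset.sum_eq_zero fun y _ => zero_mul _
      rw [h3]
      exact Submodule.zero_mem _) m
  simpa using h1

end

end Pool.Agent.K4H54.PL
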