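import Mathlib
import Pool.Agent.K4H35.HL.Dim
import Pool.Agent.K4H35.HL.Ave
import Pool.Agent.K4H54.PL.Hdg
import Pool.Agent.K4H54.PL.Grow
import Pool.Agent.K4H54.PL.Defs

/-!
# The proportion of the algebraic classes is bounded away from one
-/

set_option autoImplicit false
set_option linter.unusedSectionVars false

namespace Pool.Agent.K4H54.PL

open Matrix Module Pool.Agent.K4H35.UK Pool.Agent.K4H35.HL Pool.Agent.K4H35.NT Pool.Agent.K4H35.ST
open Pool.Agent.W437.HP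

noncomputable section

section abs

variable {ι : Type} [Fintype ι] [DecidableEq ι] {D : Matrix ι ι ℂ}
  {P : ∀ a c : ℕ, Matrix (Fin c → ι) (Fin a → ι) ℚ → Prop} {Q Qi : Matrix ι ι ℚ}

theorem norm_trace_unitary {g : Matrix ι ι ℂ} (hg : g ∈ unitaryGroup ι ℂ) :
    ‖trace g‖ ≤ Fintype.card ι := by
  unfold trace
  refine (norm_sum_le _ _).trans ?_
  refine (Finset.sum_le_sum fun i _ => entry_norm_bound_of_unitary hg i i).trans ?_
  simp

/-- the family of all correspondences -/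
theorem lefTrue (hp : Pol D Q Qi) :
    Lef (fun (a c : ℕ) (_ : Matrix (Fin c → ι) (Fin a → ι) ℚ) => True) D Q Qi where
  clo := ⟨fun _ _ => trivial, fun _ _ _ => trivial, fun _ _ => trivial, fun _ _ _ _ _ _ => trivial⟩
  h0 := trivial
  h1 := trivial
  hcap := fun _ _ _ _ => trivial
  hcup := fun _ _ _ _ => trivial
  pol := hp

theorem fc_eq (q : Matrix ι ι ℚ) :
    fc q = rl (Equiv.refl (Fin 0)) (finSumFinEquiv (m := 1) (n := 1)) (cap (Fin 1) q) := by
  ext x y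
  rw [rl_apply]
  change q (y 0) (y 1) = ∏ s : Fin 1, _
  rw [Fin.prod_univ_one]
  rfl

theorem hd_fc {q : Matrix ι ι ℚ} (hq : Dᵀ * cK ℂ q + cK ℂ q * D = 0) : Hd D (fc q) := by
  rw [fc_eq]
  refine hd_px ?_ _ _
  rw [dr_cap hq, dr_zero_fin, Matrix.zero_mul]

/-- **The growth of the dimensions of the spaces of Hodge classes.** -/
theorem growth_HH (hp : Pol D Q Qi) (f : Fr D (cK ℂ Q)) {q : Matrix ι ι ℚ} {one v : ι → ℚ}
    (hv : Hd D (cl (v1 v))) (hne : one ⬝ᵥ q *ᵥ v ≠ 0) (n m : ℕ) :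
    finrank ℚ (HH D (n + m)) ≤ Fintype.card ι ^ (n + 1) * finrank ℚ (HH D m) := by
  have L := lefTrue hp
  obtain ⟨I, hI⟩ := exists_mean (stabG (L.sys f))
  have hN : 1 ≤ Fintype.card ι := by
    by_contra hcon
    have h1 : Fintype.card ι = 0 := by omega
    have h2 : IsEmpty ι := Fintype.card_eq_zero_iff.1 h1
    apply hne
    unfold dotProduct
    exact Finset.sum_eq_zero fun i _ => h2.elim i
  have hmom : ∀ m, I (tf1 (L.sys f) 1 ^ m) = (finrank ℚ (HH D m) : ℂ) := by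
    intro m
    have h1 := finrank_eq (T := L.sys f) hI 0 m
    rw [pow_zero, mul_one] at h1
    rw [← h1, finrank_sys L f 0 m]
    unfold HH
    rw [finrank_BB_VV, ← span_eq_VV]
    have e1 : {F : Matrix (Fin m → ι) (Fin 0 → ι) ℚ | PH (fun _ _ _ => True) D 0 m F} =
        {F | Hd D F} := by
      ext F
      exact ⟨fun h => h.2, fun h => ⟨trivial, h⟩⟩
    rw [e1]
  refine growth hI (tf1 (L.sys f) 1) hN ?_ ?_ (fun m => finrank ℚ (HH D m)) hmom
    (fun m => mono_HH hv hne m) n m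
  · intro g
    have h1 := trace_real L f ⟨trivial, hd_fc hp.skew⟩ g.1.2 (fun F hF => g.2 F hF)
    change (trace (((1 : unitaryGroup ι ℂ) : Matrix ι ι ℂ) *
      ((g : unitaryGroup ι ℂ) : Matrix ι ι ℂ))).im = 0
    rw [OneMemClass.coe_one, Matrix.one_mul]
    exact h1
  · intro g
    change ‖trace (((1 : unitaryGroup ι ℂ) : Matrix ι ι ℂ) *
      ((g : unitaryGroup ι ℂ) : Matrix ι ι ℂ))‖ ≤ _
    rw [OneMemClass.coe_one, Matrix.one_mul]
    exact norm_trace_unitary g.1.2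

end abs

theorem skew_of {Y : Cohomology} {q : Matrix Y.ι Y.ι ℚ}
    (h : ∀ x y : Y.ι → ℂ, form q (Y.z *ᵥ x) y + form q x (Y.z *ᵥ y) = 0) :
    Y.zᵀ * cK ℂ q + cK ℂ q * Y.z = 0 := by
  have hpair : ∀ x y : Y.ι → ℂ, form q x y = x ⬝ᵥ cK ℂ q *ᵥ y := by
    intro x y
    unfold form dotProduct
    refine Finset.sum_congr rfl fun a _ => ?_
    simp only [mulVec, dotProduct, Finset.mul_sum]
    exact Finset.sum_congr rfl fun b _ => mul_assoc _ _ _
  ext a b
  have h2 := h (Pi.single a 1) (Pi.single b 1)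
  have e1 : form q (Y.z *ᵥ Pi.single a 1) (Pi.single b 1) = (Y.zᵀ * cK ℂ q) a b := by
    rw [hpair, mulVec_single_one, mulVec_single_one]
    rfl
  have e2 : form q (Pi.single a 1) (Y.z *ᵥ Pi.single b 1) = (cK ℂ q * Y.z) a b := by
    rw [hpair, mulVec_mulVec, mulVec_single_one, single_one_dotProduct]
    rfl
  rw [e1, e2] at h2
  exact h2

theorem hd_cl_v1 {Y : Cohomology} {v : Y.ι → ℚ} (hv : IsHodge Y v) : Hd Y.z (cl (v1 v)) := by
  unfold Hd
  rw [dr_zero_fin, Matrix.mul_zero]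
  ext x w
  rw [Matrix.mul_apply, Matrix.zero_apply]
  have h1 : ∀ u : Fin 1 → Y.ι, dr (Fin 1) Y.z x u * cK ℂ (cl (v1 v)) u w =
      Y.z (x 0) (u 0) * (v (u 0) : ℂ) := by
    intro u
    rw [dr_apply, Fin.sum_univ_one, if_pos]
    · rfl
    · intro l hl
      exact absurd (Subsingleton.elim l 0) hl
  simp only [h1]
  have h2 := (Equiv.funUnique (Fin 1) Y.ι).sum_comp (fun i => Y.z (x 0) i * (v i : ℂ))
  refine Eq.trans h2 ?_
  exact congrFun hv (x 0)

/-- **The proportion of a closed family which does not contain all Hodge classes.** -/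
theorem clause1 (Y : Cohomology) (hY : IsPolarizedHodge Y)
    (P : ∀ a c : ℕ, Matrix (Y.pow c).ι (Y.pow a).ι ℚ → Prop) (hP : IsClosed Y P)
    (q : Matrix Y.ι Y.ι ℚ) (pt : Y.ι → ℚ) (hq : IsPoincare Y q pt) (hc : Planar Y P q pt)
    (n : ℕ) (F : Matrix (Y.pow n).ι (Y.pow 0).ι ℚ)
    (hF : IsCorrespondence (Y.pow 0) (Y.pow n) F) (hFP : ¬ P 0 n F) (m : ℕ) (hm : n ≤ m) :
    (classDim Y P m : ℝ) ≤
      (1 - 1 / (2 * (Fintype.card Y.ι : ℝ) ^ (n + 1))) * (hodgeDim Y m : ℝ) := by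
  obtain ⟨Q, hQ, hskew, ⟨f⟩⟩ := hY.frame
  have hu : IsUnit Q.det := isUnit_iff_ne_zero.2 hQ
  have hp : Pol Y.z Q Q⁻¹ := ⟨Matrix.mul_nonsing_inv _ hu, hskew⟩
  have huq : IsUnit q.det := isUnit_iff_ne_zero.2 hq.det_ne
  have hPS : Cl P := ⟨fun {a c F G} => hP.add a c F G, fun {a c} r {F} => hP.smul a c r F,
    fun {a b c F G} => hP.comp a b c F G, fun {a c a' c' F G} => hP.prod a c a' c' F G⟩
  have hone : Hd Y.z (cl (v1 Y.one)) := hd_cl_v1 hY.one_hodge
  have hpt : Hd Y.z (cl (v1 pt)) := hd_cl_v1 hq.pt_hodge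
  have hPl : Pl (PH P Y.z) q q⁻¹ Y.one pt :=
    { clo := closS_PH hPS
      h0 := ⟨hc.point, hd_one 0⟩
      h1 := ⟨hc.diagonal, hd_one 1⟩
      form := ⟨hc.form, hd_fc (skew_of hq.skew)⟩
      unit := ⟨hc.unit, hone⟩
      pt := ⟨hc.ptClass, hpt⟩
      inv := Matrix.mul_nonsing_inv _ huq
      ne := hq.pairing }
  obtain ⟨x, rfl⟩ := exists_cl F
  have hx : Hd Y.z (cl x) := (hd_iff Y (cl x)).1 hF
  have h1 := clause1_aux hPl hp f hx hFP
    (C := Fintype.card Y.ι ^ (n + 1)) (fun m => growth_HH hp f hpt hq.pairing n m) m hm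
  have h2 : classDim Y P m = finrank ℚ (BB (PH P Y.z) hPl.clo hPl.zero m) := by
    rw [finrank_BB_VV, ← span_eq_VV]
    have e1 : {G : Matrix (Fin m → Y.ι) (Fin 0 → Y.ι) ℚ | PH P Y.z 0 m G} =
        {G | IsCorrespondence (Y.pow 0) (Y.pow m) G ∧ P 0 m G} := by
      ext G
      exact ⟨fun h => ⟨(hd_iff Y G).2 h.2, h.1⟩, fun h => ⟨h.2, (hd_iff Y G).1 h.1⟩⟩
    rw [e1]
    rfl
  have h3 : hodgeDim Y m = finrank ℚ (HH Y.z m) := by
    unfold HH
    rw [finrank_BB_VV, ← span_eq_VV]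
    have e1 : {G : Matrix (Fin m → Y.ι) (Fin 0 → Y.ι) ℚ | Hd Y.z G} =
        {G | IsCorrespondence (Y.pow 0) (Y.pow m) G} := by
      ext G
      exact (hd_iff Y G).symm
    rw [e1]
    rfl
  rw [← h2, ← h3] at h1
  have hD : (0 : ℝ) < (Fintype.card Y.ι : ℝ) ^ (n + 1) := by
    have h4 : 0 < Fintype.card Y.ι := by
      by_contra hcon
      have h5 : Fintype.card Y.ι = 0 := by omega
      have h6 : IsEmpty Y.ι := Fintype.card_eq_zero_iff.1 h5
      exact hY.one_ne (funext fun i => h6.elim i)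
    positivity
  have h5 : (2 * (Fintype.card Y.ι : ℝ) ^ (n + 1)) * classDim Y P m + hodgeDim Y m ≤
      (2 * (Fintype.card Y.ι : ℝ) ^ (n + 1)) * hodgeDim Y m := by
    exact_mod_cast h1
  have h6 : (1 - 1 / (2 * (Fintype.card Y.ι : ℝ) ^ (n + 1))) * (hodgeDim Y m : ℝ) =
      ((2 * (Fintype.card Y.ι : ℝ) ^ (n + 1)) * hodgeDim Y m - hodgeDim Y m) /
        (2 * (Fintype.card Y.ι : ℝ) ^ (n + 1)) := by
    field_simp
  rw [h6, le_div_iff₀ (by positivity)]
  linarith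

end

end Pool.Agent.K4H54.PL
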