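import Mathlib
import Pool.Agent.K4H54.PL.Main
import Pool.Agent.K4H54.PT.Main

/-!
# The symmetry of `Y × Y`
-/

set_option autoImplicit false
set_option linter.unusedSectionVars false

namespace Pool.Agent.K4H54.PL

open Matrix Module Pool.Agent.K4H35.UK Pool.Agent.K4H35.HL Pool.Agent.K4H35.ST
open Pool.Agent.W437.HP

noncomputable section

section gen

variable {k : Type} [Field k] {ι : Type} [Fintype ι] [DecidableEq ι]

/-- the symmetry `x × y ↦ (-1) ^ (deg x * deg y) y × x` -/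
def ssw (k : Type) [Field k] (d : ι → ℕ) : Matrix (Fin 2 → ι) (Fin 2 → ι) k :=
  Matrix.of fun x y => if x 0 = y 1 ∧ x 1 = y 0 then (-1) ^ (d (x 0) * d (x 1)) else 0

theorem sw_iff (x y : Fin 2 → ι) : x = ![y 1, y 0] ↔ x 0 = y 1 ∧ x 1 = y 0 := by
  constructor
  · intro h
    rw [h]
    exact ⟨rfl, rfl⟩
  · rintro ⟨h1, h2⟩
    funext i
    fin_cases i
    · exact h1
    · exact h2

theorem mul_ssw {α : Type} (A : Matrix α (Fin 2 → ι) k) (d : ι → ℕ) (x : α) (y : Fin 2 → ι) :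
    (A * ssw k d) x y = A x ![y 1, y 0] * (-1) ^ (d (y 1) * d (y 0)) := by
  rw [Matrix.mul_apply, Finset.sum_eq_single ![y 1, y 0]]
  · change A x ![y 1, y 0] * (if (![y 1, y 0] : Fin 2 → ι) 0 = y 1 ∧
      (![y 1, y 0] : Fin 2 → ι) 1 = y 0 then
      (-1) ^ (d ((![y 1, y 0] : Fin 2 → ι) 0) * d ((![y 1, y 0] : Fin 2 → ι) 1)) else 0) = _
    rw [if_pos ⟨rfl, rfl⟩]
    rfl
  · intro u _ hu
    change A x u * (if u 0 = y 1 ∧ u 1 = y 0 then _ else 0) = 0
    rw [if_neg fun h => hu ((sw_iff u y).2 h), mul_zero]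
  · intro h
    exact absurd (Finset.mem_univ _) h

theorem ssw_mul {α : Type} (A : Matrix (Fin 2 → ι) α k) (d : ι → ℕ) (x : Fin 2 → ι) (y : α) :
    (ssw k d * A) x y = (-1) ^ (d (x 0) * d (x 1)) * A ![x 1, x 0] y := by
  rw [Matrix.mul_apply, Finset.sum_eq_single ![x 1, x 0]]
  · change (if x 0 = (![x 1, x 0] : Fin 2 → ι) 1 ∧ x 1 = (![x 1, x 0] : Fin 2 → ι) 0 then
      (-1) ^ (d (x 0) * d (x 1)) else 0) * A ![x 1, x 0] y = _
    rw [if_pos ⟨rfl, rfl⟩]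
  · intro u _ hu
    change (if x 0 = u 1 ∧ x 1 = u 0 then _ else 0) * A u y = 0
    rw [if_neg, zero_mul]
    rintro ⟨h1, h2⟩
    exact hu ((sw_iff u x).2 ⟨h2.symm, h1.symm⟩)
  · intro h
    exact absurd (Finset.mem_univ _) h

end gen

section hodge

variable {ι : Type} [Fintype ι] [DecidableEq ι] {D : Matrix ι ι ℂ}

theorem dr_two (x y : Fin 2 → ι) : dr (Fin 2) D x y =
    (if x 1 = y 1 then D (x 0) (y 0) else 0) + (if x 0 = y 0 then D (x 1) (y 1) else 0) := by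
  rw [dr_apply, Fin.sum_univ_two]
  have e1 : ((∀ l : Fin 2, l ≠ 0 → x l = y l) ↔ x 1 = y 1) := by
    constructor
    · intro h
      exact h 1 (by decide)
    · intro h l hl
      fin_cases l
      · exact absurd rfl hl
      · exact h
  have e2 : ((∀ l : Fin 2, l ≠ 1 → x l = y l) ↔ x 0 = y 0) := by
    constructor
    · intro h
      exact h 0 (by decide)
    · intro h l hl
      fin_cases l
      · exact h
      · exact absurd rfl hl
  simp only [e1, e2]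

theorem cK_ssw (d : ι → ℕ) : cK ℂ (ssw ℚ d) = ssw ℂ d := by
  ext x y
  change (((if x 0 = y 1 ∧ x 1 = y 0 then (-1) ^ (d (x 0) * d (x 1)) else 0 : ℚ)) : ℂ) =
    if x 0 = y 1 ∧ x 1 = y 0 then (-1) ^ (d (x 0) * d (x 1)) else 0
  split_ifs
  · push_cast
    rfl
  · exact Rat.cast_zero

theorem hd_ssw {d : ι → ℕ} (hd : ∀ a b, D a b ≠ 0 → d a = d b) : Hd D (ssw ℚ d) := by
  unfold Hd
  rw [cK_ssw]
  ext x y
  rw [mul_ssw, ssw_mul, dr_two, dr_two]
  change ((if x 1 = y 0 then D (x 0) (y 1) else 0) + (if x 0 = y 1 then D (x 1) (y 0) else 0)) *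
    (-1) ^ (d (y 1) * d (y 0)) = (-1) ^ (d (x 0) * d (x 1)) *
    ((if x 0 = y 1 then D (x 1) (y 0) else 0) + (if x 1 = y 0 then D (x 0) (y 1) else 0))
  have e1 : (if x 1 = y 0 then D (x 0) (y 1) else 0) * (-1 : ℂ) ^ (d (y 1) * d (y 0)) =
      (-1) ^ (d (x 0) * d (x 1)) * (if x 1 = y 0 then D (x 0) (y 1) else 0) := by
    split_ifs with h
    · by_cases h0 : D (x 0) (y 1) = 0
      · rw [h0, zero_mul, mul_zero]
      · rw [hd _ _ h0, h, mul_comm]
    · rw [zero_mul, mul_zero]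
  have e2 : (if x 0 = y 1 then D (x 1) (y 0) else 0) * (-1 : ℂ) ^ (d (y 1) * d (y 0)) =
      (-1) ^ (d (x 0) * d (x 1)) * (if x 0 = y 1 then D (x 1) (y 0) else 0) := by
    split_ifs with h
    · by_cases h0 : D (x 1) (y 0) = 0
      · rw [h0, zero_mul, mul_zero]
      · rw [hd _ _ h0, h, mul_comm]
    · rw [zero_mul, mul_zero]
  rw [add_mul, e1, e2, mul_add, add_comm]

end hodge

end

end Pool.Agent.K4H54.PL

namespace Pool.Agent.K4H54.PT

open Matrix Module Pool.Agent.K4H35.TN Pool.Agent.K4H54.PL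

theorem TC_ssw {T E : Type} [Field E] {X : Cohomology T E} {d : X.ι → ℕ}
    (hd : ∀ θ a b, X.act θ a b ≠ 0 → d a = d b) : TC X 2 2 (ssw E d) := fun θ => by
  change pa X 2 θ * ssw E d = ssw E d * pa X 2 θ
  refine Matrix.ext fun (x y : Fin 2 → X.ι) => ?_
  rw [mul_ssw, ssw_mul, pa_apply, pa_apply, Fin.prod_univ_two, Fin.prod_univ_two]
  change X.act θ (x 0) (y 1) * X.act θ (x 1) (y 0) * (-1) ^ (d (y 1) * d (y 0)) =
    (-1) ^ (d (x 0) * d (x 1)) * (X.act θ (x 1) (y 0) * X.act θ (x 0) (y 1))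
  by_cases h0 : X.act θ (x 0) (y 1) = 0
  · rw [h0]
    ring
  by_cases h1 : X.act θ (x 1) (y 0) = 0
  · rw [h1]
    ring
  rw [hd θ _ _ h0, hd θ _ _ h1]
  ring

end Pool.Agent.K4H54.PT
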