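import Mathlib
import Pool.Agent.K4H54.PL.Swap
import Pool.Agent.K4H54.PT.Dual
import Pool.Agent.K4H10.ZO.Perm

/-!
# Signed permutations in closed families
-/

set_option autoImplicit false
set_option linter.unusedSectionVars false

namespace Pool.Agent.K4H54.PL

open Matrix Module

noncomputable section

variable {k : Type} [Field k] {ι : Type} [Fintype ι] [DecidableEq ι]

/-- a signed permutation of the factors -/
def MP {N : ℕ} (s : (Fin N → ι) → k) (τ : Equiv.Perm (Fin N)) :
    Matrix (Fin N → ι) (Fin N → ι) k :=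
  Matrix.of fun V W => if W = V ∘ τ then s V else 0

theorem MP_mul_apply {N : ℕ} {α : Type} (s : (Fin N → ι) → k) (τ : Equiv.Perm (Fin N))
    (A : Matrix (Fin N → ι) α k) (V : Fin N → ι) (w : α) :
    (MP s τ * A) V w = s V * A (V ∘ τ) w := by
  rw [Matrix.mul_apply, Finset.sum_eq_single (V ∘ τ)]
  · change (if V ∘ τ = V ∘ τ then s V else 0) * _ = _
    rw [if_pos rfl]
  · intro W _ hW
    change (if W = V ∘ τ then s V else 0) * _ = 0
    rw [if_neg hW, zero_mul]
  · intro h
    exact absurd (Finset.mem_univ _) h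

theorem mul_MP_apply {N : ℕ} {α : Type} (s : (Fin N → ι) → k) (τ : Equiv.Perm (Fin N))
    (A : Matrix α (Fin N → ι) k) (w : α) (W : Fin N → ι) :
    (A * MP s τ) w W = s (W ∘ τ.symm) * A w (W ∘ τ.symm) := by
  rw [Matrix.mul_apply, Finset.sum_eq_single (W ∘ τ.symm)]
  · change _ * (if W = (W ∘ τ.symm) ∘ τ then s (W ∘ τ.symm) else 0) = _
    rw [if_pos, mul_comm]
    funext i
    simp
  · intro V _ hV
    change _ * (if W = V ∘ τ then s V else 0) = 0
    rw [if_neg, mul_zero]
    intro h
    apply hV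
    rw [h]
    funext i
    simp
  · intro h
    exact absurd (Finset.mem_univ _) h

theorem MP_mul {N : ℕ} (s s' : (Fin N → ι) → k) (σ τ : Equiv.Perm (Fin N)) :
    MP s σ * MP s' τ = MP (fun V => s V * s' (V ∘ σ)) (σ * τ) := by
  ext V W
  rw [MP_mul_apply]
  change s V * (if W = (V ∘ σ) ∘ τ then s' (V ∘ σ) else 0) =
    if W = V ∘ (σ * τ : Equiv.Perm (Fin N)) then s V * s' (V ∘ σ) else 0
  have h1 : (V ∘ (σ * τ : Equiv.Perm (Fin N))) = (V ∘ σ) ∘ τ := rfl
  rw [h1]
  split_ifs
  · rfl
  · exact mul_zero _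

theorem MP_one (N : ℕ) : MP (fun _ => (1 : k)) (1 : Equiv.Perm (Fin N)) =
    (1 : Matrix (Fin N → ι) (Fin N → ι) k) := by
  ext V W
  change (if W = V ∘ (1 : Equiv.Perm (Fin N)) then (1 : k) else 0) = _
  rw [Matrix.one_apply]
  refine if_congr ?_ rfl rfl
  constructor
  · intro h
    rw [h]
    rfl
  · intro h
    rw [h]
    rfl

/-- the permutation is good if it lies in the family with some signs -/
def Good (R : ∀ a c : ℕ, Matrix (Fin c → ι) (Fin a → ι) k → Prop) (N : ℕ)
    (τ : Equiv.Perm (Fin N)) : Prop :=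
  ∃ s : (Fin N → ι) → k, (∀ V, s V = 1 ∨ s V = -1) ∧ R N N (MP s τ)

variable {R : ∀ a c : ℕ, Matrix (Fin c → ι) (Fin a → ι) k → Prop} (hR : Cl R)

include hR in
theorem Good.mul {N : ℕ} {σ τ : Equiv.Perm (Fin N)} (h : Good R N σ) (h' : Good R N τ) :
    Good R N (σ * τ) := by
  obtain ⟨s, hs, hM⟩ := h
  obtain ⟨s', hs', hM'⟩ := h'
  refine ⟨fun V => s V * s' (V ∘ σ), fun V => ?_, ?_⟩
  · rcases hs V with h1 | h1 <;> rcases hs' (V ∘ σ) with h2 | h2 <;> simp [h1, h2]
  · rw [← MP_mul]
    exact hR.comp hM' hM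

theorem Good.one (h1 : ∀ n, R n n 1) (N : ℕ) : Good R N 1 :=
  ⟨fun _ => 1, fun _ => Or.inl rfl, by
    rw [MP_one]
    exact h1 N⟩

/-- the matrix of an adjacent transposition -/
def adjM (k : Type) [Field k] (d : ι → ℕ) (a b : ℕ) :
    Matrix (Fin (a + 2 + b) → ι) (Fin (a + 2 + b) → ι) k :=
  ex (ex (1 : Matrix (Fin a → ι) (Fin a → ι) k) (ssw k d)) (1 : Matrix (Fin b → ι) (Fin b → ι) k)

theorem adjM_eq (d : ι → ℕ) (a b : ℕ) (i : Fin (a + 2 + b)) (hi : i.val = a)
    (j : Fin (a + 2 + b)) (hj : j.val = a + 1) :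
    adjM k d a b = MP (fun V => (-1) ^ (d (V i) * d (V j))) (Equiv.swap i j) := by
  have hi' : i = Fin.castAdd b (Fin.natAdd a (0 : Fin 2)) := Fin.ext (by simp [hi])
  have hj' : j = Fin.castAdd b (Fin.natAdd a (1 : Fin 2)) := Fin.ext (by simp [hj])
  have hf1 : ∀ t : Fin a, Equiv.swap i j (Fin.castAdd b (Fin.castAdd 2 t)) =
      Fin.castAdd b (Fin.castAdd 2 t) := by
    intro t
    refine Equiv.swap_apply_of_ne_of_ne ?_ ?_
    · intro h
      have h1 := congrArg Fin.val h
      rw [hi] at h1
      have h2 : (Fin.castAdd b (Fin.castAdd 2 t)).val = t.val := rfl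
      have := t.2
      omega
    · intro h
      have h1 := congrArg Fin.val h
      rw [hj] at h1
      have h2 : (Fin.castAdd b (Fin.castAdd 2 t)).val = t.val := rfl
      have := t.2
      omega
  have hf3 : ∀ t : Fin b, Equiv.swap i j (Fin.natAdd (a + 2) t) = Fin.natAdd (a + 2) t := by
    intro t
    refine Equiv.swap_apply_of_ne_of_ne ?_ ?_
    · intro h
      have h1 := congrArg Fin.val h
      rw [hi] at h1
      have h2 : (Fin.natAdd (a + 2) t).val = a + 2 + t.val := rfl
      omega
    · intro h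
      have h1 := congrArg Fin.val h
      rw [hj] at h1
      have h2 : (Fin.natAdd (a + 2) t).val = a + 2 + t.val := rfl
      omega
  ext V W
  change ((1 : Matrix (Fin a → ι) (Fin a → ι) k)
      (fun t => V (Fin.castAdd b (Fin.castAdd 2 t))) (fun t => W (Fin.castAdd b (Fin.castAdd 2 t))) *
      (if V (Fin.castAdd b (Fin.natAdd a (0 : Fin 2))) = W (Fin.castAdd b (Fin.natAdd a (1 : Fin 2))) ∧
        V (Fin.castAdd b (Fin.natAdd a (1 : Fin 2))) = W (Fin.castAdd b (Fin.natAdd a (0 : Fin 2)))
        then (-1) ^ (d (V (Fin.castAdd b (Fin.natAdd a (0 : Fin 2)))) *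
          d (V (Fin.castAdd b (Fin.natAdd a (1 : Fin 2))))) else 0)) *
      (1 : Matrix (Fin b → ι) (Fin b → ι) k) (fun t => V (Fin.natAdd (a + 2) t))
        (fun t => W (Fin.natAdd (a + 2) t)) =
    if W = V ∘ Equiv.swap i j then (-1) ^ (d (V i) * d (V j)) else 0
  rw [← hi', ← hj']
  by_cases hW : W = V ∘ Equiv.swap i j
  · have e1 : (fun t => V (Fin.castAdd b (Fin.castAdd 2 t))) =
        (fun t => W (Fin.castAdd b (Fin.castAdd 2 t))) := by
      funext t
      rw [hW]
      change _ = V (Equiv.swap i j (Fin.castAdd b (Fin.castAdd 2 t)))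
      rw [hf1]
    have e3 : (fun t => V (Fin.natAdd (a + 2) t)) = (fun t => W (Fin.natAdd (a + 2) t)) := by
      funext t
      rw [hW]
      change _ = V (Equiv.swap i j (Fin.natAdd (a + 2) t))
      rw [hf3]
    have e2 : V i = W j := by
      rw [hW]
      change _ = V (Equiv.swap i j j)
      rw [Equiv.swap_apply_right]
    have e4 : V j = W i := by
      rw [hW]
      change _ = V (Equiv.swap i j i)
      rw [Equiv.swap_apply_left]
    rw [e1, e3, one_apply_eq, one_apply_eq, if_pos hW, if_pos ⟨e2, e4⟩, one_mul, mul_one]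
  · rw [if_neg hW]
    by_cases e1 : (fun t => V (Fin.castAdd b (Fin.castAdd 2 t))) =
        (fun t => W (Fin.castAdd b (Fin.castAdd 2 t)))
    · by_cases e3 : (fun t => V (Fin.natAdd (a + 2) t)) = (fun t => W (Fin.natAdd (a + 2) t))
      · have e2 : ¬ (V i = W j ∧ V j = W i) := by
          rintro ⟨h1, h2⟩
          apply hW
          funext t
          refine Fin.addCases (fun t => ?_) (fun t => ?_) t
          · refine Fin.addCases (fun t => ?_) (fun t => ?_) t
            · change _ = V (Equiv.swap i j (Fin.castAdd b (Fin.castAdd 2 t)))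
              rw [hf1]
              exact (congrFun e1 t).symm
            · fin_cases t
              · change W (Fin.castAdd b (Fin.natAdd a (0 : Fin 2))) =
                  V (Equiv.swap i j (Fin.castAdd b (Fin.natAdd a (0 : Fin 2))))
                rw [← hi', Equiv.swap_apply_left]
                exact h2.symm
              · change W (Fin.castAdd b (Fin.natAdd a (1 : Fin 2))) =
                  V (Equiv.swap i j (Fin.castAdd b (Fin.natAdd a (1 : Fin 2))))
                rw [← hj', Equiv.swap_apply_right]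
                exact h1.symm
          · change _ = V (Equiv.swap i j (Fin.natAdd (a + 2) t))
            rw [hf3]
            exact (congrFun e3 t).symm
        rw [if_neg e2, mul_zero, zero_mul]
      · rw [Matrix.one_apply_ne e3, mul_zero]
    · rw [Matrix.one_apply_ne e1, zero_mul, zero_mul]

include hR in
theorem good_adj (h1 : ∀ n, R n n 1) {d : ι → ℕ} (hs : R 2 2 (ssw k d)) (a b : ℕ)
    (i : Fin (a + 2 + b)) (hi : i.val = a) (j : Fin (a + 2 + b)) (hj : j.val = a + 1) :
    Good R (a + 2 + b) (Equiv.swap i j) := by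
  refine ⟨fun V => (-1) ^ (d (V i) * d (V j)), fun V => neg_one_pow_eq_or k _, ?_⟩
  rw [← adjM_eq d a b i hi j hj]
  exact hR.prod (hR.prod (h1 a) hs) (h1 b)

include hR in
theorem good_all (h1 : ∀ n, R n n 1) {d : ι → ℕ} (hs : R 2 2 (ssw k d)) (N : ℕ)
    (τ : Equiv.Perm (Fin N)) : Good R N τ := by
  rcases N with _ | N
  · have h2 : τ = 1 := Subsingleton.elim _ _
    rw [h2]
    exact Good.one h1 0
  · have h2 : τ ∈ Submonoid.closure
        (Set.range fun i : Fin N => Equiv.swap i.castSucc i.succ) := by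
      rw [Equiv.Perm.mclosure_swap_castSucc_succ]
      trivial
    induction h2 using Submonoid.closure_induction with
    | mem x hx =>
      obtain ⟨i, rfl⟩ := hx
      obtain ⟨b, hb⟩ : ∃ b, N + 1 = i.val + 2 + b := ⟨N + 1 - (i.val + 2), by omega⟩
      have key : ∀ (M : ℕ) (hM : M = i.val + 2 + b) (p q : Fin M), p.val = i.val →
          q.val = i.val + 1 → Good R M (Equiv.swap p q) := by
        intro M hM p q hp hq
        subst hM
        exact good_adj hR h1 hs i.val b p hp q hq
      exact key (N + 1) hb i.castSucc i.succ rfl (by simp)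
    | one => exact Good.one h1 _
    | mul x y _ _ hx hy => exact hx.mul hR hy

end

end Pool.Agent.K4H54.PL
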