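import Mathlib
import Pool.Agent.K4H54.PL.Fam
import Pool.Agent.K4H10.ZO.HalfPL

/-!
# The hypotheses of the majority law for closed families of correspondences
-/

set_option autoImplicit false
set_option linter.unusedSectionVars false

namespace Pool.Agent.K4H54.PL

open Matrix Module

noncomputable section

variable {k : Type} [Field k] {ι : Type} [Fintype ι] [DecidableEq ι]

/-- a signed permutation of the factors on a class -/
theorem act_cl {R : ∀ a c : ℕ, Matrix (Fin c → ι) (Fin a → ι) k → Prop} (hR : Cl R) {N : ℕ}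
    {s : (Fin N → ι) → k} {τ : Equiv.Perm (Fin N)} (hM : R N N (MP s τ)) {x : T k ι N}
    (hx : R 0 N (cl x)) : R 0 N (cl (K4H10.ZO.act s τ x)) := by
  have h1 := hR.comp hx hM
  have h2 : MP s τ * cl x = cl (K4H10.ZO.act s τ x) := by
    ext V w
    rw [MP_mul_apply]
    rfl
  rwa [h2] at h1

/-- a signed permutation of the factors on a form -/
theorem act_ro {R : ∀ a c : ℕ, Matrix (Fin c → ι) (Fin a → ι) k → Prop} (hR : Cl R) {N : ℕ}
    {s : (Fin N → ι) → k} {τ : Equiv.Perm (Fin N)} (hM : R N N (MP s τ)) {φ : T k ι N}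
    (hx : R N 0 (ro φ)) : R N 0 (ro (K4H10.ZO.actR s τ φ)) := by
  have h1 := hR.comp hM hx
  have h2 : ro φ * MP s τ = ro (K4H10.ZO.actR s τ φ) := by
    ext w V
    rw [mul_MP_apply]
    rfl
  rwa [h2] at h1

variable {RB RH : ∀ a c : ℕ, Matrix (Fin c → ι) (Fin a → ι) k → Prop} {q qi : Matrix ι ι k}
  {o v : ι → k} {d : ι → ℕ}

/-- The two families: `RB` contains the planar classes, the class of the diagonal and the graph of
the symmetry, and it is contained in the closed family `RH`. -/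
structure Pair (RB RH : ∀ a c : ℕ, Matrix (Fin c → ι) (Fin a → ι) k → Prop) (q qi : Matrix ι ι k)
    (o v : ι → k) (d : ι → ℕ) : Prop where
  pl : Pl RB q qi o v
  clo : Cl RH
  zero : ∀ a c, RH a c 0
  le : ∀ {a c : ℕ} {F : Matrix (Fin c → ι) (Fin a → ι) k}, RB a c F → RH a c F
  inverse : RB 0 2 (fq qi)ᵀ
  symm : RB 2 2 (ssw k d)

section pair

theorem Pair.perm (h : Pair RB RH q qi o v d) (N : ℕ) (τ : Equiv.Perm (Fin N)) :
    ∃ s : (Fin N → ι) → k, (∀ V, s V ≠ 0) ∧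
      (∀ b ∈ BB RB h.pl.clo h.pl.zero N, K4H10.ZO.act s τ b ∈ BB RB h.pl.clo h.pl.zero N) ∧
      (∀ b ∈ BB RH h.clo h.zero N, K4H10.ZO.act s τ b ∈ BB RH h.clo h.zero N) ∧
      ∀ φ ∈ BB' RH h.clo h.zero N, K4H10.ZO.actR s τ φ ∈ BB' RH h.clo h.zero N := by
  obtain ⟨s, hs, hM⟩ := good_all h.pl.clo h.pl.idn h.symm N τ
  refine ⟨s, fun V => ?_, fun b hb => ?_, fun b hb => ?_, fun φ hφ => ?_⟩
  · rcases hs V with h1 | h1 <;> rw [h1]
    · exact one_ne_zero
    · exact neg_ne_zero.2 one_ne_zero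
  · exact act_cl h.pl.clo hM hb
  · exact act_cl h.clo (h.le hM) hb
  · exact act_ro h.clo (h.le hM) hφ

theorem Pair.low [CharZero k] (h : Pair RB RH q qi o v d) (j : ℕ) :
    Fintype.card ι ^ (2 * j) ≤
      finrank k (BB RB h.pl.clo h.pl.zero (2 * j)) * (j + 1) ^ (Fintype.card ι ^ 2) := by
  choose s hs hM using fun τ => good_all h.pl.clo h.pl.idn h.symm j τ
  refine (K4H10.ZO.taskB (K := k) j s hs).trans (Nat.mul_le_mul_right _ ?_)
  rw [finrank_BB_VV, two_mul, ← finrank_total h.pl.clo h.pl.zero h.pl.idn h.pl.inv h.pl.form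
    h.inverse j j]
  let L : Matrix (Fin j → ι) (Fin j → ι) k →ₗ[k] ((Fin j → ι) × (Fin j → ι) → k) :=
    { toFun := fun F ww => F ww.1 ww.2
      map_add' := fun F G => rfl
      map_smul' := fun r F => rfl }
  have h1 : Submodule.span k (Set.range fun σ : Equiv.Perm (Fin j) =>
      fun ww : (Fin j → ι) × (Fin j → ι) => if ww.2 = ww.1 ∘ σ then s σ ww.1 else 0) ≤
      (VV RB h.pl.clo h.pl.zero j j).map L := by
    rw [Submodule.span_le]
    rintro _ ⟨σ, rfl⟩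
    exact ⟨MP (s σ) σ, hM σ, rfl⟩
  exact (Submodule.finrank_mono h1).trans (Submodule.finrank_map_le L _)

theorem Pair.bot (h : Pair RB RH q qi o v d) : BB RB h.pl.clo h.pl.zero 0 ≠ ⊥ := by
  intro h1
  have h2 : (fun _ => 1 : T k ι 0) ∈ BB RB h.pl.clo h.pl.zero 0 := by
    have h3 : cl (fun _ => 1 : T k ι 0) = 1 := by
      ext u w
      rw [Subsingleton.elim u w, Matrix.one_apply_eq]
      rfl
    change RB 0 0 (cl (fun _ => 1 : T k ι 0))
    rw [h3]
    exact h.pl.h0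
  rw [h1, Submodule.mem_bot] at h2
  exact one_ne_zero (congrFun h2 Fin.elim0)

theorem Pl.v1_ne (h : Pl RB q qi o v) : (v1 v : T k ι 1) ≠ 0 := by
  intro h1
  apply h.hvl
  rw [h1, zero_dotProduct]

/-- **The majority law for closed families.** -/
theorem half_fam [CharZero k] (h : Pair RB RH q qi o v d)
    (hnd : ∀ m, ∀ φ ∈ BB' RH h.clo h.zero m, (∀ x ∈ BB RH h.clo h.zero m, φ ⬝ᵥ x = 0) → φ = 0)
    (hnd' : ∀ m, ∀ x ∈ BB RH h.clo h.zero m, (∀ φ ∈ BB' RH h.clo h.zero m, x ⬝ᵥ φ = 0) → x = 0)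
    (hlog : ∀ j, finrank k (BB RH h.clo h.zero (2 * j + 2)) ^ 2 ≤
      finrank k (BB RH h.clo h.zero (2 * j)) * finrank k (BB RH h.clo h.zero (2 * j + 4)))
    {n : ℕ} {x : T k ι n} (hx : RH 0 n (cl x)) (hx' : ¬ RB 0 n (cl x)) (ε : ℝ) (hε : 0 < ε) :
    ∀ᶠ m : ℕ in Filter.atTop, (finrank k (BB RB h.pl.clo h.pl.zero m) : ℝ) ≤
      (1 / 2 + ε) * (finrank k (BB RH h.clo h.zero m) : ℝ) := by
  refine K4H10.ZO.half (k := k) (ι := ι) (H := BB RH h.clo h.zero) (H' := BB' RH h.clo h.zero)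
    (B := BB RB h.pl.clo h.pl.zero) (B' := BB' RB h.pl.clo h.pl.zero)
    (fun m b hb => h.le hb) hnd hnd' ?_ ?_ ?_ ?_ ?_ h.perm h.bot (v := v1 v) h.pl.pt h.pl.v1_ne
    (fun j _ => hlog j) (fun j _ => h.low j) (n := n) ?_ ε hε
  · intro n m φ hφ ψ hψ
    exact ten_ro h.clo hφ (h.le hψ)
  · intro n m b hb ψ hψ
    exact ctr_cl h.pl.clo h.pl.idn hb hψ
  · exact finrank_dual h.pl.clo h.pl.zero h.pl.idn h.pl.inv h.pl.form
  · intro m n x hx y hy
    exact ten_cl h.pl.clo hx hy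
  · intro m n x hx y hy
    exact ten_cl h.clo hx hy
  · intro h1
    have h2 : x ∈ BB RH h.clo h.zero n := hx
    rw [← h1] at h2
    exact hx' h2

end pair

end

end Pool.Agent.K4H54.PL
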