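import Mathlib
import Pool.Agent.K4H54.PL.HalfFam

/-!
# Products of classes, and bending, in closed families
-/

set_option autoImplicit false
set_option linter.unusedSectionVars false

namespace Pool.Agent.K4H54.PL

open Matrix Module

noncomputable section

variable {k : Type} [Field k] {ι : Type} [Fintype ι] [DecidableEq ι]

section perm

variable {R : ∀ a c : ℕ, Matrix (Fin c → ι) (Fin a → ι) k → Prop} (hR : Cl R)

include hR in
theorem perm_all (h1 : ∀ n, R n n 1) (hs : R 2 2 (ssw k fun _ => 0)) (N : ℕ)
    (τ : Equiv.Perm (Fin N)) : R N N (MP (fun _ => 1) τ) := by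
  rcases N with _ | N
  · have h2 : τ = 1 := Subsingleton.elim _ _
    rw [h2, MP_one]
    exact h1 0
  · have h2 : τ ∈ Submonoid.closure
        (Set.range fun i : Fin N => Equiv.swap i.castSucc i.succ) := by
      rw [Equiv.Perm.mclosure_swap_castSucc_succ]
      trivial
    induction h2 using Submonoid.closure_induction with
    | mem x hx =>
      obtain ⟨i, rfl⟩ := hx
      obtain ⟨b, hb⟩ : ∃ b, N + 1 = i.val + 2 + b := ⟨N + 1 - (i.val + 2), by omega⟩
      have key : ∀ (M : ℕ) (hM : M = i.val + 2 + b) (p q : Fin M), p.val = i.val →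
          q.val = i.val + 1 → R M M (MP (fun _ => 1) (Equiv.swap p q)) := by
        intro M hM p q hp hq
        subst hM
        have h3 := adjM_eq (k := k) (ι := ι) (fun _ => 0) i.val b p hp q hq
        simp only [mul_zero, pow_zero] at h3
        rw [← h3]
        exact hR.prod (hR.prod (h1 i.val) hs) (h1 b)
      exact key (N + 1) hb i.castSucc i.succ rfl (by simp)
    | one =>
      rw [MP_one]
      exact h1 _
    | mul x y _ _ hx hy =>
      have h3 := hR.comp hy hx
      rw [MP_mul] at h3
      simpa using h3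

include hR in
theorem perm_cl (h1 : ∀ n, R n n 1) (hs : R 2 2 (ssw k fun _ => 0)) {N : ℕ}
    (τ : Equiv.Perm (Fin N)) {x : T k ι N} (hx : R 0 N (cl x)) :
    R 0 N (cl (fun V => x (V ∘ τ))) := by
  have h2 := act_cl hR (perm_all hR h1 hs N τ) hx
  have h3 : K4H10.ZO.act (fun _ => 1) τ x = fun V => x (V ∘ τ) := by
    funext V
    exact one_mul _
  rwa [h3] at h2

include hR in
/-- The products of classes, with the factors at arbitrary places. -/
theorem prod_cl (h1 : ∀ n, R n n 1) (hs : R 2 2 (ssw k fun _ => 0)) : ∀ (t : ℕ) (κ : Fin t → ℕ)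
    (b : ∀ s, T k ι (κ s)), (∀ s, R 0 (κ s) (cl (b s))) → ∀ (N : ℕ)
    (e : (Σ s, Fin (κ s)) ≃ Fin N), R 0 N (cl fun w => ∏ s, b s fun a => w (e ⟨s, a⟩)) := by
  intro t
  induction t with
  | zero =>
    intro κ b _ N e
    have hN : N = 0 := by
      have h2 := Fintype.card_congr e
      simpa using h2.symm
    subst hN
    have h3 : cl (fun w => ∏ s, b s fun a => w (e ⟨s, a⟩) : T k ι 0) = 1 := by
      ext u w
      rw [Subsingleton.elim u w, Matrix.one_apply_eq]
      change ∏ s : Fin 0, b s (fun a => u (e ⟨s, a⟩)) = _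
      rw [Finset.univ_eq_empty, Finset.prod_empty]
    rw [h3]
    exact h1 0
  | succ t ih =>
    intro κ b hb N e
    let N' := Fintype.card (Σ s : Fin t, Fin (κ s.succ))
    let e' : (Σ s : Fin t, Fin (κ s.succ)) ≃ Fin N' := Fintype.equivFin _
    have hN : N = κ 0 + N' := by
      have h2 := Fintype.card_congr e
      have h3 : Fintype.card (Σ s, Fin (κ s)) = κ 0 + N' := by
        rw [Fintype.card_sigma, Fin.sum_univ_succ]
        simp only [Fintype.card_fin, N', Fintype.card_sigma]
      rw [h3, Fintype.card_fin] at h2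
      exact h2.symm
    clear_value N' e'
    subst hN
    have h4 := ten_cl hR (hb 0) (ih (fun s => κ s.succ) (fun s => b s.succ) (fun s => hb s.succ) N' e')
    obtain ⟨τ, h5, h6⟩ := K4H10.ZO.exists_plc (a := κ 0) (b := N') (f := fun a => e ⟨0, a⟩)
      (g := fun j => e ⟨(e'.symm j).1.succ, (e'.symm j).2⟩)
      (by
        intro a a' h
        have h7 := e.injective h
        simpa using h7)
      (by
        intro j j' h
        have h7 := e.injective h
        apply e'.symm.injective
        rcases hj : e'.symm j with ⟨s, a⟩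
        rcases hj' : e'.symm j' with ⟨s', a'⟩
        rw [hj, hj'] at h7
        simp only [Sigma.mk.injEq, Fin.succ_inj] at h7
        obtain ⟨rfl, h8⟩ := h7
        rw [eq_of_heq h8])
      (by
        intro a j h
        have h7 := e.injective h
        simp only [Sigma.mk.injEq] at h7
        exact absurd h7.1.symm (Fin.succ_ne_zero _))
    have h7 := perm_cl hR h1 hs τ h4
    have h8 : (fun V => (ten (b 0) (fun w => ∏ s : Fin t, b s.succ fun a => w (e' ⟨s, a⟩)) :
        T k ι (κ 0 + N')) (V ∘ τ)) = fun w => ∏ s, b s fun a => w (e ⟨s, a⟩) := by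
      funext V
      rw [Fin.prod_univ_succ]
      change b 0 (fun i => V (τ (Fin.castAdd N' i))) *
        ∏ s : Fin t, b s.succ (fun a => V (τ (Fin.natAdd (κ 0) (e' ⟨s, a⟩)))) = _
      have h9 : ∀ p : Σ s : Fin t, Fin (κ s.succ),
          e ⟨(e'.symm (e' p)).1.succ, (e'.symm (e' p)).2⟩ = e ⟨p.1.succ, p.2⟩ := fun p => by
        rw [Equiv.symm_apply_apply]
      simp only [h5, h6]
      congr 1
      refine Finset.prod_congr rfl fun s _ => ?_
      congr 1
      funext a
      exact congrArg V (h9 ⟨s, a⟩)
    rwa [h8] at h7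

end perm

section full

variable {RB RH : ∀ a c : ℕ, Matrix (Fin c → ι) (Fin a → ι) k → Prop} {q qi : Matrix ι ι k}
  {o v : ι → k} {d : ι → ℕ}

/-- If the small family contains all classes of degree `a + c` then it contains all correspondences
from degree `a` to degree `c`. -/
theorem Pair.full (h : Pair RB RH q qi o v d) {a c : ℕ}
    (hn : ∀ x : T k ι (a + c), RH 0 (a + c) (cl x) → RB 0 (a + c) (cl x))
    {F : Matrix (Fin c → ι) (Fin a → ι) k} (hF : RH a c F) : RB a c F := by
  have hidH : ∀ n, RH n n 1 := fun n => h.le (h.pl.idn n)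
  have h1 : VV RB h.pl.clo h.pl.zero 0 (a + c) = VV RH h.clo h.zero 0 (a + c) := by
    refine le_antisymm (fun G hG => h.le hG) ?_
    intro G hG
    obtain ⟨x, rfl⟩ := exists_cl G
    exact hn x hG
  have h2 := finrank_total h.pl.clo h.pl.zero h.pl.idn h.pl.inv h.pl.form h.inverse a c
  have h3 := finrank_total h.clo h.zero hidH h.pl.inv (h.le h.pl.form) (h.le h.inverse) a c
  have h4 : VV RB h.pl.clo h.pl.zero a c = VV RH h.clo h.zero a c := by
    refine Submodule.eq_of_le_of_finrank_le (fun G hG => h.le hG) ?_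
    rw [h2, h3, h1]
  have h5 : F ∈ VV RH h.clo h.zero a c := hF
  rw [← h4] at h5
  exact h5

end full

end

end Pool.Agent.K4H54.PL
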