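import Mathlib
import Pool.Agent.K4H54.PL.Main

/-!
# Log-convexity of the dimensions of the spaces of Hodge classes
-/

set_option autoImplicit false
set_option linter.unusedSectionVars false

namespace Pool.Agent.K4H54.PL

open Matrix Module Pool.Agent.K4H35.UK Pool.Agent.K4H35.HL Pool.Agent.K4H35.NT Pool.Agent.K4H35.ST
open Pool.Agent.W437.HP

noncomputable section

section mean

variable {Γ : Type} [Group Γ] [TopologicalSpace Γ] [CompactSpace Γ]

theorem mean_re {I : C(Γ, ℂ) →ₗ[ℂ] ℂ} (h : ℕ → ℕ) (χ : C(Γ, ℂ)) (hh : ∀ m, I (χ ^ m) = h m)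
    (a b : ℝ) (i j l : ℕ) :
    (I (χ ^ i - (a : ℂ) • χ ^ j + (b : ℂ) • χ ^ l)).re = h i - a * h j + b * h l := by
  rw [map_add, map_sub, map_smul, map_smul, hh, hh, hh, smul_eq_mul, smul_eq_mul, Complex.add_re,
    Complex.sub_re, Complex.re_ofReal_mul, Complex.re_ofReal_mul, Complex.natCast_re,
    Complex.natCast_re, Complex.natCast_re]

/-- **Log-convexity of the even moments.** -/
theorem log_convex {I : C(Γ, ℂ) →ₗ[ℂ] ℂ} (hI : IsMean I) (χ : C(Γ, ℂ))
    (hre : ∀ g, (χ g).im = 0) (h : ℕ → ℕ) (hh : ∀ m, I (χ ^ m) = h m) (m : ℕ) :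
    h (2 * m + 2) ^ 2 ≤ h (2 * m) * h (2 * m + 4) := by
  have key : ∀ t : ℝ, 0 ≤ (h (2 * m + 4) : ℝ) * (t * t) + (-(2 * (h (2 * m + 2) : ℝ))) * t +
      h (2 * m) := by
    intro t
    have h1 := hI.re_le (-(χ ^ (2 * m) - ((2 * t : ℝ) : ℂ) • χ ^ (2 * m + 2) +
      ((t ^ 2 : ℝ) : ℂ) • χ ^ (2 * m + 4))) 0 (by
      intro g
      have h2 : χ g = (((χ g).re : ℝ) : ℂ) := by
        apply Complex.ext
        · rw [Complex.ofReal_re]
        · rw [Complex.ofReal_im, hre]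
      rw [ContinuousMap.neg_apply, ContinuousMap.add_apply, ContinuousMap.sub_apply,
        ContinuousMap.smul_apply, ContinuousMap.smul_apply, ContinuousMap.pow_apply,
        ContinuousMap.pow_apply, ContinuousMap.pow_apply, h2, smul_eq_mul, smul_eq_mul]
      have h3 : -((((χ g).re : ℝ) : ℂ) ^ (2 * m) - ((2 * t : ℝ) : ℂ) *
          (((χ g).re : ℝ) : ℂ) ^ (2 * m + 2) + ((t ^ 2 : ℝ) : ℂ) *
          (((χ g).re : ℝ) : ℂ) ^ (2 * m + 4)) =
          ((-(((χ g).re ^ m - t * (χ g).re ^ (m + 2)) ^ 2) : ℝ) : ℂ) := by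
        push_cast
        ring
      rw [h3, Complex.ofReal_re]
      exact neg_nonpos.2 (sq_nonneg _))
    rw [map_neg, Complex.neg_re, mean_re h χ hh] at h1
    linarith
  have h1 := discrim_le_zero key
  unfold discrim at h1
  have h2 : ((h (2 * m + 2) : ℝ)) ^ 2 ≤ (h (2 * m) : ℝ) * h (2 * m + 4) := by nlinarith
  exact_mod_cast h2

end mean

section abs

variable {ι : Type} [Fintype ι] [DecidableEq ι] {D : Matrix ι ι ℂ} {Q Qi : Matrix ι ι ℚ}

/-- **Log-convexity of the dimensions of the spaces of Hodge classes.** -/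
theorem log_HH (hp : Pol D Q Qi) (f : Fr D (cK ℂ Q)) (m : ℕ) :
    finrank ℚ (HH D (2 * m + 2)) ^ 2 ≤
      finrank ℚ (HH D (2 * m)) * finrank ℚ (HH D (2 * m + 4)) := by
  have L := lefTrue hp
  obtain ⟨I, hI⟩ := exists_mean (stabG (L.sys f))
  have hmom : ∀ m, I (tf1 (L.sys f) 1 ^ m) = (finrank ℚ (HH D m) : ℂ) := by
    intro m
    have h1 := finrank_eq (T := L.sys f) hI 0 m
    rw [pow_zero, mul_one] at h1
    rw [← h1, finrank_sys L f 0 m]
    unfold HH
    rw [finrank_BB_VV, ← span_eq_VV]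
    have e1 : {F : Matrix (Fin m → ι) (Fin 0 → ι) ℚ | PH (fun _ _ _ => True) D 0 m F} =
        {F | Hd D F} := by
      ext F
      exact ⟨fun h => h.2, fun h => ⟨trivial, h⟩⟩
    rw [e1]
  refine log_convex hI (tf1 (L.sys f) 1) ?_ (fun m => finrank ℚ (HH D m)) hmom m
  intro g
  have h1 := trace_real L f ⟨trivial, hd_fc hp.skew⟩ g.1.2 (fun F hF => g.2 F hF)
  change (trace (((1 : unitaryGroup ι ℂ) : Matrix ι ι ℂ) *
    ((g : unitaryGroup ι ℂ) : Matrix ι ι ℂ))).im = 0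
  rw [OneMemClass.coe_one, Matrix.one_mul]
  exact h1

end abs

end

end Pool.Agent.K4H54.PL
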