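import Mathlib
import Pool.Agent.K4H35.NT.Defs

/-!
# The symmetry and the diagonal of `Y × Y` (Hodge structures)
-/

set_option autoImplicit false

namespace Pool.Agent.K4H54.PL

open Matrix Pool.Agent.K4H35.NT

/-- `d` is the degree of the classes in the (homogeneous) basis of `H(Y)`: the Hodge operator preserves
it; the property holds for the graph of the symmetry of `Y × Y`, which acts on `H(Y × Y)` by
`x × y ↦ (-1) ^ (deg x * deg y) y × x`; and it holds for the class of the diagonal in `H(Y × Y)`, as a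
map `ℚ → H(Y × Y)` (its matrix is the inverse of the matrix of the Poincaré form `q`). -/
structure Symmetric (Y : Cohomology)
    (P : ∀ a c : ℕ, Matrix (Y.pow c).ι (Y.pow a).ι ℚ → Prop) (q : Matrix Y.ι Y.ι ℚ)
    (d : Y.ι → ℕ) : Prop where
  degree : ∀ a b, Y.z a b ≠ 0 → d a = d b
  symmetry : P 2 2 (Matrix.of fun (x y : Fin 2 → Y.ι) =>
    if x 0 = y 1 ∧ x 1 = y 0 then (-1) ^ (d (x 0) * d (x 1)) else 0)
  diagonalClass : P 0 2 (Matrix.of fun (x : Fin 2 → Y.ι) (_ : Fin 0 → Y.ι) => q⁻¹ (x 0) (x 1))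

end Pool.Agent.K4H54.PL
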