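import Mathlib
import Pool.Agent.K4H54.PL.HalfFam
import Pool.Agent.K4H54.PL.Log
import Pool.Agent.K4H54.PL.Sym

/-!
# The majority law for Hodge classes
-/

set_option autoImplicit false
set_option linter.unusedSectionVars false

namespace Pool.Agent.K4H54.PL

open Matrix Module Pool.Agent.K4H35.UK Pool.Agent.K4H35.HL Pool.Agent.K4H35.NT Pool.Agent.K4H35.ST
open Pool.Agent.W437.HP

noncomputable section

section

variable {Y : Cohomology} {P : ∀ a c : ℕ, Matrix (Y.pow c).ι (Y.pow a).ι ℚ → Prop}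
  {q : Matrix Y.ι Y.ι ℚ} {pt : Y.ι → ℚ} {d : Y.ι → ℕ}

/-- the closed family of `P` and of the Hodge classes -/
theorem pair_hodge (hY : IsPolarizedHodge Y) (hP : IsClosed Y P) (hq : IsPoincare Y q pt)
    (hc : Planar Y P q pt) (hd : Symmetric Y P q d) :
    Pair (PH P Y.z) (fun a c (F : Matrix (Fin c → Y.ι) (Fin a → Y.ι) ℚ) => Hd Y.z F) q q⁻¹
      Y.one pt d := by
  have huq : IsUnit q.det := isUnit_iff_ne_zero.2 hq.det_ne
  have hPS : Cl P := ⟨fun {a c F G} => hP.add a c F G, fun {a c} r {F} => hP.smul a c r F,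
    fun {a b c F G} => hP.comp a b c F G, fun {a c a' c' F G} => hP.prod a c a' c' F G⟩
  have hs := skew_of hq.skew
  refine
    { pl :=
        { clo := closS_PH hPS
          h0 := ⟨hc.point, hd_one 0⟩
          h1 := ⟨hc.diagonal, hd_one 1⟩
          form := ⟨hc.form, hd_fc hs⟩
          unit := ⟨hc.unit, hd_cl_v1 hY.one_hodge⟩
          pt := ⟨hc.ptClass, hd_cl_v1 hq.pt_hodge⟩
          inv := Matrix.mul_nonsing_inv _ huq
          ne := hq.pairing }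
      clo := closS_Hd
      zero := hd_zero
      le := fun {a c F} h => h.2
      inverse := ⟨hd.diagonalClass, ?_⟩
      symm := ⟨hd.symmetry, hd_ssw hd.degree⟩ }
  -- the class of the diagonal is a Hodge class
  have h1 : q * q⁻¹ = 1 := Matrix.mul_nonsing_inv _ huq
  have h2 : cK ℂ q * cK ℂ q⁻¹ = 1 := by
    rw [← W437.HP.cK_mul, h1, W437.HP.cK_one]
  have h2' : cK ℂ q⁻¹ * cK ℂ q = 1 := mul_eq_one_comm.1 h2
  have h3 : cK ℂ q⁻¹ * Y.zᵀ + Y.z * cK ℂ q⁻¹ = 0 := by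
    have e1 := congrArg (fun Z => cK ℂ q⁻¹ * Z * cK ℂ q⁻¹) hs
    simp only [Matrix.mul_add, Matrix.add_mul, Matrix.mul_zero, Matrix.zero_mul] at e1
    have e2 : cK ℂ q⁻¹ * (Y.zᵀ * cK ℂ q) * cK ℂ q⁻¹ = cK ℂ q⁻¹ * Y.zᵀ := by
      rw [Matrix.mul_assoc, Matrix.mul_assoc, h2, Matrix.mul_one]
    have e3 : cK ℂ q⁻¹ * (cK ℂ q * Y.z) * cK ℂ q⁻¹ = Y.z * cK ℂ q⁻¹ := by
      rw [← Matrix.mul_assoc, h2', Matrix.one_mul]
    rw [e2, e3] at e1
    exact e1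
  unfold Hd
  rw [dr_zero_fin, Matrix.mul_zero]
  ext x w
  rw [Matrix.mul_apply, Matrix.zero_apply]
  have h4 : ∀ u : Fin 2 → Y.ι, dr (Fin 2) Y.z x u * cK ℂ (fq q⁻¹)ᵀ u w =
      (if x 1 = u 1 then Y.z (x 0) (u 0) else 0) * cK ℂ q⁻¹ (u 0) (u 1) +
        (if x 0 = u 0 then Y.z (x 1) (u 1) else 0) * cK ℂ q⁻¹ (u 0) (u 1) := by
    intro u
    rw [dr_two, add_mul]
    rfl
  simp only [h4]
  have h5 : ∀ F : Y.ι → Y.ι → ℂ, ∑ u : Fin 2 → Y.ι, F (u 0) (u 1) = ∑ i, ∑ j, F i j := by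
    intro F
    rw [← Fintype.sum_prod_type' (f := F)]
    exact Fintype.sum_equiv (finTwoArrowEquiv Y.ι) _ _ fun _ => rfl
  refine (h5 (fun i j => (if x 1 = j then Y.z (x 0) i else 0) * cK ℂ q⁻¹ i j +
    (if x 0 = i then Y.z (x 1) j else 0) * cK ℂ q⁻¹ i j)).trans ?_
  simp only [Finset.sum_add_distrib]
  have h6 : ∑ i, ∑ j, (if x 1 = j then Y.z (x 0) i else 0) * cK ℂ q⁻¹ i j =
      (Y.z * cK ℂ q⁻¹) (x 0) (x 1) := by
    rw [Matrix.mul_apply]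
    refine Finset.sum_congr rfl fun i _ => ?_
    rw [Finset.sum_eq_single (x 1)]
    · rw [if_pos rfl]
    · intro j _ hj
      rw [if_neg (Ne.symm hj), zero_mul]
    · intro h
      exact absurd (Finset.mem_univ _) h
  have h7 : ∑ i, ∑ j, (if x 0 = i then Y.z (x 1) j else 0) * cK ℂ q⁻¹ i j =
      (cK ℂ q⁻¹ * Y.zᵀ) (x 0) (x 1) := by
    rw [Matrix.mul_apply, Finset.sum_eq_single (x 0)]
    · refine Finset.sum_congr rfl fun j _ => ?_
      rw [if_pos rfl, transpose_apply, mul_comm]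
    · intro i _ hi
      refine Finset.sum_eq_zero fun j _ => ?_
      rw [if_neg (Ne.symm hi), zero_mul]
    · intro h
      exact absurd (Finset.mem_univ _) h
  rw [h6, h7]
  have h8 := congrFun (congrFun h3 (x 0)) (x 1)
  rw [Matrix.add_apply, Matrix.zero_apply, add_comm] at h8
  exact h8

theorem classDim_eq (hP : Cl (PH P Y.z)) (h0 : ∀ a c, PH P Y.z a c 0) (m : ℕ) :
    classDim Y P m = finrank ℚ (BB (PH P Y.z) hP h0 m) := by
  rw [finrank_BB_VV, ← span_eq_VV]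
  have e1 : {G : Matrix (Fin m → Y.ι) (Fin 0 → Y.ι) ℚ | PH P Y.z 0 m G} =
      {G | IsCorrespondence (Y.pow 0) (Y.pow m) G ∧ P 0 m G} := by
    ext G
    exact ⟨fun h => ⟨(hd_iff Y G).2 h.2, h.1⟩, fun h => ⟨h.2, (hd_iff Y G).1 h.1⟩⟩
  rw [e1]
  rfl

theorem hodgeDim_eq (m : ℕ) : hodgeDim Y m = finrank ℚ (HH Y.z m) := by
  unfold HH
  rw [finrank_BB_VV, ← span_eq_VV]
  have e1 : {G : Matrix (Fin m → Y.ι) (Fin 0 → Y.ι) ℚ | Hd Y.z G} =
      {G | IsCorrespondence (Y.pow 0) (Y.pow m) G} := by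
    ext G
    exact (hd_iff Y G).symm
  rw [e1]
  rfl

end

/-- **The majority law for Hodge classes**, without the standard conjecture. -/
theorem clause1H (Y : Cohomology) (hY : IsPolarizedHodge Y)
    (P : ∀ a c : ℕ, Matrix (Y.pow c).ι (Y.pow a).ι ℚ → Prop) (hP : IsClosed Y P)
    (q : Matrix Y.ι Y.ι ℚ) (pt : Y.ι → ℚ) (hq : IsPoincare Y q pt) (hc : Planar Y P q pt)
    (d : Y.ι → ℕ) (hd : Symmetric Y P q d)
    (n : ℕ) (F : Matrix (Y.pow n).ι (Y.pow 0).ι ℚ)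
    (hF : IsCorrespondence (Y.pow 0) (Y.pow n) F) (hFP : ¬ P 0 n F) (ε : ℝ) (hε : 0 < ε) :
    ∀ᶠ m : ℕ in Filter.atTop, (classDim Y P m : ℝ) ≤ (1 / 2 + ε) * (hodgeDim Y m : ℝ) := by
  have h := pair_hodge hY hP hq hc hd
  obtain ⟨Q, hQ, hskew, ⟨f⟩⟩ := hY.frame
  have hu : IsUnit Q.det := isUnit_iff_ne_zero.2 hQ
  have hp : Pol Y.z Q Q⁻¹ := ⟨Matrix.mul_nonsing_inv _ hu, hskew⟩
  obtain ⟨x, rfl⟩ := exists_cl F
  have hx : Hd Y.z (cl x) := (hd_iff Y (cl x)).1 hF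
  have h1 := half_fam h (nondeg hp f) (nondeg' hp f) (fun j => log_HH hp f j) hx
    (fun h' => hFP h'.1) ε hε
  filter_upwards [h1] with m hm
  rw [classDim_eq h.pl.clo h.pl.zero, hodgeDim_eq]
  exact hm

end

end Pool.Agent.K4H54.PL
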