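import Mathlib
import Pool.Agent.K4H54.PL.HalfHdg
import Pool.Agent.K4H54.PT.Half
import Pool.Agent.K4H35.ML.HalfU

/-!
# The majority law with a uniform bound: Hodge classes and Tate classes
-/

set_option autoImplicit false
set_option linter.unusedSectionVars false

namespace Pool.Agent.K4H54.PL

open Matrix Module

noncomputable section

/-- **The majority law for closed families**, uniform version. -/
theorem half_fam_u (D n : ℕ) (ε : ℝ) (hε : 0 < ε) : ∃ M : ℕ, ∀ (k : Type) [Field k] [CharZero k]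
    (ι : Type) [Fintype ι] [DecidableEq ι], Fintype.card ι = D →
    ∀ (RB RH : ∀ a c : ℕ, Matrix (Fin c → ι) (Fin a → ι) k → Prop) (q qi : Matrix ι ι k)
      (o v : ι → k) (d : ι → ℕ) (h : Pair RB RH q qi o v d),
    (∀ m, ∀ φ ∈ BB' RH h.clo h.zero m, (∀ x ∈ BB RH h.clo h.zero m, φ ⬝ᵥ x = 0) → φ = 0) →
    (∀ m, ∀ x ∈ BB RH h.clo h.zero m, (∀ φ ∈ BB' RH h.clo h.zero m, x ⬝ᵥ φ = 0) → x = 0) →
    (∀ j, finrank k (BB RH h.clo h.zero (2 * j + 2)) ^ 2 ≤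
      finrank k (BB RH h.clo h.zero (2 * j)) * finrank k (BB RH h.clo h.zero (2 * j + 4))) →
    ∀ x : T k ι n, RH 0 n (cl x) → ¬ RB 0 n (cl x) → ∀ m : ℕ, M ≤ m →
    (finrank k (BB RB h.pl.clo h.pl.zero m) : ℝ) ≤
      (1 / 2 + ε) * (finrank k (BB RH h.clo h.zero m) : ℝ) := by
  obtain ⟨M, hM⟩ := K4H35.ML.half_u D n ε hε
  refine ⟨M, ?_⟩
  intro k _ _ ι _ _ hD RB RH q qi o v d h hnd hnd' hlog x hx hx' m hm
  refine hM k ι hD (BB RH h.clo h.zero) (BB' RH h.clo h.zero) (BB RB h.pl.clo h.pl.zero)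
    (BB' RB h.pl.clo h.pl.zero) (fun m b hb => h.le hb) hnd hnd' ?_ ?_ ?_ ?_ ?_ h.perm h.bot
    (v1 v) h.pl.pt h.pl.v1_ne (fun j _ => hlog j) (fun j _ => h.low j) ?_ m hm
  · intro n m φ hφ ψ hψ
    exact ten_ro h.clo hφ (h.le hψ)
  · intro n m b hb ψ hψ
    exact ctr_cl h.pl.clo h.pl.idn hb hψ
  · exact finrank_dual h.pl.clo h.pl.zero h.pl.idn h.pl.inv h.pl.form
  · intro m n x hx y hy
    exact ten_cl h.pl.clo hx hy
  · intro m n x hx y hy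
    exact ten_cl h.clo hx hy
  · intro h1
    have h2 : x ∈ BB RH h.clo h.zero n := hx
    rw [← h1] at h2
    exact hx' h2

end

section hodge

open Pool.Agent.K4H35.UK Pool.Agent.K4H35.HL Pool.Agent.K4H35.NT Pool.Agent.K4H35.ST
open Pool.Agent.W437.HP

/-- **The majority law for Hodge classes**, with a uniform bound and without the standard conjecture. -/
theorem half_hodge (D n : ℕ) (ε : ℝ) (hε : 0 < ε) : ∃ M : ℕ, ∀ (Y : Cohomology),
    IsPolarizedHodge Y → Fintype.card Y.ι = D →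
    ∀ (P : ∀ a c : ℕ, Matrix (Y.pow c).ι (Y.pow a).ι ℚ → Prop), IsClosed Y P →
    ∀ (q : Matrix Y.ι Y.ι ℚ) (pt : Y.ι → ℚ) (d : Y.ι → ℕ), IsPoincare Y q pt → Planar Y P q pt →
    Symmetric Y P q d →
    ∀ F : Matrix (Y.pow n).ι (Y.pow 0).ι ℚ, IsCorrespondence (Y.pow 0) (Y.pow n) F → ¬ P 0 n F →
    ∀ m : ℕ, M ≤ m → (classDim Y P m : ℝ) ≤ (1 / 2 + ε) * (hodgeDim Y m : ℝ) := by
  obtain ⟨M, hM⟩ := half_fam_u D n ε hε
  refine ⟨M, ?_⟩
  intro Y hY hD P hP q pt d hq hc hd F hF hFP m hm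
  have h := pair_hodge hY hP hq hc hd
  obtain ⟨Q, hQ, hskew, ⟨f⟩⟩ := hY.frame
  have hu : IsUnit Q.det := isUnit_iff_ne_zero.2 hQ
  have hp : Pol Y.z Q Q⁻¹ := ⟨Matrix.mul_nonsing_inv _ hu, hskew⟩
  obtain ⟨x, rfl⟩ := exists_cl F
  have hx : Hd Y.z (cl x) := (hd_iff Y (cl x)).1 hF
  rw [classDim_eq h.pl.clo h.pl.zero, hodgeDim_eq]
  exact hM ℚ Y.ι hD _ _ _ _ _ _ _ h (nondeg hp f) (nondeg' hp f) (fun j => log_HH hp f j) x hx
    (fun h' => hFP h'.1) m hm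

end hodge

end Pool.Agent.K4H54.PL

namespace Pool.Agent.K4H54.PT

open Matrix Module Pool.Agent.K4H35.TN Pool.Agent.K4H54.PL

/-- **The majority law for Tate classes**, with a uniform bound. -/
theorem half_tate (D n : ℕ) (ε : ℝ) (hε : 0 < ε) : ∃ M : ℕ, ∀ (T E : Type) [Field E] [CharZero E]
    (X : Cohomology T E), (∀ n, IsSemisimple (X.pow n)) → Fintype.card X.ι = D →
    ∀ (P : ∀ a c : ℕ, Matrix (X.pow c).ι (X.pow a).ι E → Prop), IsClosed X P →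
    ∀ (q : Matrix X.ι X.ι E) (pt : X.ι → E) (d : X.ι → ℕ), IsPoincare X q pt → Planar X P q pt →
    Symmetric X P q d →
    ∀ F : Matrix (X.pow n).ι (X.pow 0).ι E, IsCorrespondence (X.pow 0) (X.pow n) F → ¬ P 0 n F →
    ∀ m : ℕ, M ≤ m → (classDim X P m : ℝ) ≤ (1 / 2 + ε) * (tateDim X m : ℝ) := by
  obtain ⟨M, hM⟩ := half_fam_u D n ε hε
  refine ⟨M, ?_⟩
  intro T E _ _ X hX hD P hP q pt d hq hc hd F hF hFP m hm
  have h := pair_tate hP hq hc hd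
  obtain ⟨x, rfl⟩ := exists_cl F
  have hx : TC X 0 n (cl x) := hF
  rw [classDim_eq hP h.pl.zero, tateDim_eq]
  exact hM E X.ι hD _ _ _ _ _ _ _ h (nondeg hX) (nondeg' hX) (fun j => log_HT hX hq j) x hx
    (fun h' => hFP h'.2) m hm

end Pool.Agent.K4H54.PT
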